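import Mathlib

set_option autoImplicit false

/-!
# Cores, potentials and core paths
-/

namespace Pool.Agent.RCF

/-- The parameters of a core. `κ + 1` rungs `(i, i + n - 1)`, `i ≤ κ`, with colours `g i`;
`K` bounds the number of colour classes and `N u` the number of classes with colour `≥ u`. -/
structure Par (n κ K : ℕ) (g N : ℕ → ℕ) : Prop where
  hκ : 2 * K + 2 * κ + 4 ≤ n
  hg1 : ∀ i ≤ κ, κ < g i
  hg2 : ∀ i ≤ κ, g i + 4 ≤ n
  hc2 : ∀ i ≤ κ, ∀ u ≤ g i, κ + N u + u + 3 ≤ n + i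
  hc3 : ∀ i ≤ κ, ∀ u, g i < u → n + 2 * i ≤ 2 * u + 2 * N u
  hN0 : N 0 ≤ K
  hmid : ∀ (S : Finset ℕ) (u v : ℕ), u ≤ v → (∀ s ∈ S, s ≤ κ ∧ u ≤ g s ∧ g s < v) →
    Set.InjOn g S → S.card + N v ≤ N u
  hsp : ∀ u v, u ≤ v → 2 * N u + u ≤ 2 * N v + v + 1
  hrange : ∀ u, u + 2 ≤ n → 2 * N u + u + 2 ≤ n

/-- the potential -/
def f (n κ : ℕ) (N : ℕ → ℕ) (v : ℕ) : ℕ :=
  if v ≤ κ then v
  else if v + 1 < n then min (κ + 1) (n - 2 - v - 2 * N v)
  else v + 2 - n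

/-- adjacency in the core: path edges and rungs -/
def CAdj (n x y : ℕ) : Prop :=
  x + 1 = y ∨ y + 1 = x ∨ x + (n - 1) = y ∨ y + (n - 1) = x

/-- colour of a core edge -/
def ccol (g : ℕ → ℕ) (x y : ℕ) : ℕ :=
  if max x y = min x y + 1 then min x y else g (min x y)

/-- a rainbow path with `k` vertices in the core -/
structure CP (n κ : ℕ) (g : ℕ → ℕ) (k : ℕ) (u : ℕ → ℕ) : Prop where
  hk : 1 ≤ k
  hb : ∀ i < k, u i < n + κ
  hinj : ∀ i < k, ∀ j < k, u i = u j → i = j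
  hadj : ∀ i, i + 1 < k → CAdj n (u i) (u (i + 1))
  hrb : ∀ i j, i + 1 < k → j + 1 < k →
    ccol g (u i) (u (i + 1)) = ccol g (u j) (u (j + 1)) → i = j

/-- What a core path with `k` vertices and ends `y < z` leaves behind: `S` the set of rungs used,
`E` the set of path edges used. -/
structure Trace (n κ : ℕ) (g : ℕ → ℕ) (k y z : ℕ) (S E : Finset ℕ) : Prop where
  hyz : y < z
  hz : z < n + κ
  hS : ∀ s ∈ S, s ≤ κ
  hE : ∀ e ∈ E, e + 1 < n + κ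
  hinj : Set.InjOn g S
  hgE : ∀ s ∈ S, g s ∉ E
  hcard : E.card + S.card + 1 = k
  hpar : ∀ e, ((if e ∈ E then 1 else 0) + (S.filter (fun s => s ≤ e ∧ e < s + (n - 1))).card
    + (if y ≤ e then 1 else 0) + (if z ≤ e then 1 else 0)) % 2 = 0
  hseg : κ < y → z + 1 < n → y - 1 ∉ E → k = z - y + 1

end Pool.Agent.RCF
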