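import Mathlib

set_option autoImplicit false

/-!
# Counting lemmas for the two rails (module TLemma)
`T w = ∑_{p < w} (number of elements of S that are ≤ p) mod 2` and its mirror image.
-/

namespace Pool.Agent.RCF

/-- number of `p < w` with an odd number of elements of `S` below or at `p` -/
def TL (S : Finset ℕ) (w : ℕ) : ℕ := ∑ p ∈ Finset.range w, (S.filter (fun s => s ≤ p)).card % 2

/-- number of `w ≤ p < κ` with an odd number of elements of `S` above `p` -/
def TR (S : Finset ℕ) (κ w : ℕ) : ℕ :=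
  ∑ p ∈ Finset.Ico w κ, (S.filter (fun s => p < s)).card % 2

private theorem mod2_le (k : ℕ) : k % 2 ≤ 1 := by omega

theorem TL_le (S : Finset ℕ) (w : ℕ) : TL S w ≤ w := by
  unfold TL
  calc ∑ p ∈ Finset.range w, (S.filter (fun s => s ≤ p)).card % 2
      ≤ ∑ _p ∈ Finset.range w, 1 := Finset.sum_le_sum (fun p _ => mod2_le _)
    _ = w := by simp

theorem TL_zero (S : Finset ℕ) (a w : ℕ) (ha : ∀ s ∈ S, a ≤ s) (h : w ≤ a) : TL S w = 0 := by
  unfold TL
  apply Finset.sum_eq_zero
  intro p hp
  rw [Finset.mem_range] at hp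
  have : S.filter (fun s => s ≤ p) = ∅ := by
    apply Finset.filter_eq_empty_iff.2
    intro s hs hsp
    have := ha s hs
    omega
  rw [this]
  simp

private theorem TL_succ (S : Finset ℕ) (w : ℕ) :
    TL S (w + 1) = TL S w + (S.filter (fun s => s ≤ w)).card % 2 := by
  unfold TL
  rw [Finset.sum_range_succ]

theorem TL_sub (S : Finset ℕ) (a w : ℕ) (ha : ∀ s ∈ S, a ≤ s) (h : a ≤ w) : TL S w + a ≤ w := by
  obtain ⟨d, rfl⟩ := Nat.exists_eq_add_of_le h
  induction d with
  | zero => rw [Nat.add_zero, TL_zero S a a ha (le_refl a)]; omega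
  | succ d ih =>
    have h1 := ih (by omega)
    have h2 := TL_succ S (a + d)
    have h3 := mod2_le (S.filter (fun s => s ≤ a + d)).card
    rw [← Nat.add_assoc, h2]
    omega

/-- number of elements below `w` -/
private def ML (S : Finset ℕ) (w : ℕ) : ℕ := (S.filter (fun s => s < w)).card

private theorem ML_succ (S : Finset ℕ) (w : ℕ) :
    ML S (w + 1) = (S.filter (fun s => s ≤ w)).card := by
  unfold ML
  congr 1
  apply Finset.filter_congr
  intro s _
  omega

private theorem ML_step (S : Finset ℕ) (w : ℕ) :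
    ML S (w + 1) = ML S w ∨ ML S (w + 1) = ML S w + 1 := by
  unfold ML
  have h1 : S.filter (fun s => s < w) ⊆ S.filter (fun s => s < w + 1) := by
    intro s hs
    rw [Finset.mem_filter] at hs ⊢
    exact ⟨hs.1, by omega⟩
  have h2 : S.filter (fun s => s < w + 1) ⊆ insert w (S.filter (fun s => s < w)) := by
    intro s hs
    rw [Finset.mem_filter] at hs
    rw [Finset.mem_insert, Finset.mem_filter]
    rcases Nat.lt_or_ge s w with h | h
    · exact Or.inr ⟨hs.1, h⟩
    · exact Or.inl (by omega)
  have h3 := Finset.card_le_card h1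
  have h4 := Finset.card_le_card h2
  have h5 := Finset.card_insert_le w (S.filter (fun s => s < w))
  omega

private theorem ML_rest (S : Finset ℕ) (κ w : ℕ) (hS : ∀ s ∈ S, s ≤ κ) (hw : w ≤ κ + 1) :
    S.card + w ≤ ML S w + κ + 1 := by
  unfold ML
  have h1 : S.card = (S.filter (fun s => s < w)).card + (S.filter (fun s => ¬ s < w)).card :=
    (Finset.card_filter_add_card_filter_not (s := S) (p := fun s => s < w)).symm
  have h2 : S.filter (fun s => ¬ s < w) ⊆ Finset.Ico w (κ + 1) := by
    intro s hs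
    rw [Finset.mem_filter] at hs
    have := hS s hs.1
    rw [Finset.mem_Ico]
    omega
  have h3 := Finset.card_le_card h2
  rw [Nat.card_Ico] at h3
  omega

private theorem ML_le (S : Finset ℕ) (w : ℕ) : ML S w ≤ S.card :=
  Finset.card_le_card (Finset.filter_subset _ _)

private theorem TL_inv (S : Finset ℕ) (a w : ℕ) (ha : ∀ s ∈ S, a ≤ s) (h : a ≤ w) :
    2 * TL S w + ML S w + 2 * a ≤ 2 * w + ML S w % 2 := by
  obtain ⟨d, rfl⟩ := Nat.exists_eq_add_of_le h
  induction d with
  | zero =>
    have h1 : TL S (a + 0) = 0 := TL_zero S a a ha (le_refl a)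
    have h2 : ML S (a + 0) = 0 := by
      unfold ML
      rw [Finset.card_eq_zero]
      apply Finset.filter_eq_empty_iff.2
      intro s hs hsp
      have := ha s hs
      omega
    rw [h1, h2]
    omega
  | succ d ih =>
    have h1 := ih (by omega)
    have h2 := TL_succ S (a + d)
    have h3 := ML_succ S (a + d)
    have h4 := ML_step S (a + d)
    rw [← Nat.add_assoc, h2, ← h3]
    omega

theorem TL_main2 (S : Finset ℕ) (κ a w : ℕ) (hS : ∀ s ∈ S, s ≤ κ) (ha : ∀ s ∈ S, a ≤ s)
    (haw : a ≤ w) (hw : w ≤ κ) :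
    2 * TL S w + S.card + 2 * a ≤ w + κ + 2 := by
  have h1 := TL_inv S a w ha haw
  have h2 := ML_rest S κ w hS (by omega)
  omega

theorem TL_main (S : Finset ℕ) (κ a w : ℕ) (hS : ∀ s ∈ S, s ≤ κ) (ha : ∀ s ∈ S, a ≤ s)
    (hne : S.Nonempty) (hw : w ≤ κ) :
    2 * TL S w + S.card + 2 * a + S.card % 2 ≤ 2 * κ + 2 := by
  obtain ⟨s0, hs0⟩ := hne
  have haκ : a ≤ κ := le_trans (ha s0 hs0) (hS s0 hs0)
  rcases Nat.lt_or_ge w a with h | h
  · have h1 := TL_zero S a w ha h.le
    have h2 : S ⊆ Finset.Icc a κ := by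
      intro s hs
      rw [Finset.mem_Icc]
      exact ⟨ha s hs, hS s hs⟩
    have h3 := Finset.card_le_card h2
    rw [Nat.card_Icc] at h3
    omega
  · have h1 := TL_inv S a w ha h
    have h2 := ML_rest S κ w hS (by omega)
    have h3 := ML_le S w
    rcases Nat.lt_or_ge w κ with h4 | h4
    · omega
    · have h5 : w = κ := by omega
      subst h5
      omega

theorem TR_zero (S : Finset ℕ) (κ b w : ℕ) (hb : ∀ s ∈ S, s ≤ b) (h : b ≤ w) : TR S κ w = 0 := by
  unfold TR
  apply Finset.sum_eq_zero
  intro p hp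
  rw [Finset.mem_Ico] at hp
  have : S.filter (fun s => p < s) = ∅ := by
    apply Finset.filter_eq_empty_iff.2
    intro s hs hsp
    have := hb s hs
    omega
  rw [this]
  simp

private theorem TR_succ (S : Finset ℕ) (κ w : ℕ) (h : w < κ) :
    TR S κ w = TR S κ (w + 1) + (S.filter (fun s => w < s)).card % 2 := by
  unfold TR
  rw [← Finset.sum_Ioo_add_eq_sum_Ico h]
  congr 1

theorem TR_sub (S : Finset ℕ) (κ b w : ℕ) (hb : ∀ s ∈ S, s ≤ b) (hbκ : b ≤ κ) (h : w ≤ b) :
    TR S κ w + w ≤ b := by
  obtain ⟨d, hd⟩ := Nat.exists_eq_add_of_le h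
  induction d generalizing w with
  | zero =>
    have : TR S κ w = 0 := TR_zero S κ b w hb (by omega)
    omega
  | succ d ih =>
    have h1 := ih (w + 1) (by omega) (by omega)
    have h2 := TR_succ S κ w (by omega)
    have h3 := mod2_le (S.filter (fun s => w < s)).card
    omega

/-- number of elements above `w` -/
private def MR (S : Finset ℕ) (w : ℕ) : ℕ := (S.filter (fun s => w < s)).card

private theorem MR_step (S : Finset ℕ) (w : ℕ) :
    MR S w = MR S (w + 1) ∨ MR S w = MR S (w + 1) + 1 := by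
  unfold MR
  have h1 : S.filter (fun s => w + 1 < s) ⊆ S.filter (fun s => w < s) := by
    intro s hs
    rw [Finset.mem_filter] at hs ⊢
    exact ⟨hs.1, by omega⟩
  have h2 : S.filter (fun s => w < s) ⊆ insert (w + 1) (S.filter (fun s => w + 1 < s)) := by
    intro s hs
    rw [Finset.mem_filter] at hs
    rw [Finset.mem_insert, Finset.mem_filter]
    rcases Nat.lt_or_ge (w + 1) s with h | h
    · exact Or.inr ⟨hs.1, h⟩
    · exact Or.inl (by omega)
  have h3 := Finset.card_le_card h1
  have h4 := Finset.card_le_card h2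
  have h5 := Finset.card_insert_le (w + 1) (S.filter (fun s => w + 1 < s))
  omega

private theorem MR_rest (S : Finset ℕ) (w : ℕ) : S.card ≤ MR S w + w + 1 := by
  unfold MR
  have h1 : S.card = (S.filter (fun s => w < s)).card + (S.filter (fun s => ¬ w < s)).card :=
    (Finset.card_filter_add_card_filter_not (s := S) (p := fun s => w < s)).symm
  have h2 : S.filter (fun s => ¬ w < s) ⊆ Finset.range (w + 1) := by
    intro s hs
    rw [Finset.mem_filter] at hs
    rw [Finset.mem_range]
    omega
  have h3 := Finset.card_le_card h2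
  rw [Finset.card_range] at h3
  omega

private theorem MR_le (S : Finset ℕ) (w : ℕ) : MR S w ≤ S.card :=
  Finset.card_le_card (Finset.filter_subset _ _)

private theorem TR_inv (S : Finset ℕ) (κ b w : ℕ) (hb : ∀ s ∈ S, s ≤ b) (hbκ : b ≤ κ)
    (h : w ≤ b) : 2 * TR S κ w + MR S w + 2 * w ≤ 2 * b + MR S w % 2 := by
  obtain ⟨d, hd⟩ := Nat.exists_eq_add_of_le h
  induction d generalizing w with
  | zero =>
    have h1 : TR S κ w = 0 := TR_zero S κ b w hb (by omega)
    have h2 : MR S w = 0 := by
      unfold MR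
      rw [Finset.card_eq_zero]
      apply Finset.filter_eq_empty_iff.2
      intro s hs hsp
      have := hb s hs
      omega
    rw [h1, h2]
    omega
  | succ d ih =>
    have h1 := ih (w + 1) (by omega) (by omega)
    have h2 := TR_succ S κ w (by omega)
    have h3 : MR S w = (S.filter (fun s => w < s)).card := rfl
    have h4 := MR_step S w
    rw [← h3] at h2
    omega

theorem TR_main2 (S : Finset ℕ) (κ b w : ℕ) (hb : ∀ s ∈ S, s ≤ b) (hbκ : b ≤ κ)
    (hwb : w ≤ b) :
    2 * TR S κ w + S.card + w ≤ 2 * b + 2 := by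
  have h1 := TR_inv S κ b w hb hbκ hwb
  have h2 := MR_rest S w
  omega

theorem TR_main (S : Finset ℕ) (κ b w : ℕ) (hb : ∀ s ∈ S, s ≤ b) (hbκ : b ≤ κ)
    (hne : S.Nonempty) :
    2 * TR S κ w + S.card + S.card % 2 ≤ 2 * b + 2 := by
  rcases Nat.lt_or_ge b w with h | h
  · have h1 := TR_zero S κ b w hb h.le
    have h2 : S ⊆ Finset.range (b + 1) := by
      intro s hs
      rw [Finset.mem_range]
      have := hb s hs
      omega
    have h3 := Finset.card_le_card h2
    rw [Finset.card_range] at h3
    have h4 := hne.card_pos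
    omega
  · have h1 := TR_inv S κ b w hb hbκ h
    have h2 := MR_rest S w
    have h3 := MR_le S w
    rcases Nat.eq_zero_or_pos w with h4 | h4
    · subst h4
      omega
    · omega

end Pool.Agent.RCF
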