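import Mathlib
import Pool.Agent.RCF.Defs
import Pool.Agent.RCF.TLemma

set_option autoImplicit false

/-!
# The case analysis (module Cases, helper64)
-/

namespace Pool.Agent.RCF

/-- indicator of membership -/
def ind (E : Finset ℕ) (e : ℕ) : ℕ := if e ∈ E then 1 else 0

theorem ind_le (E : Finset ℕ) (e : ℕ) : ind E e ≤ 1 := by
  unfold ind
  split_ifs <;> omega

theorem ind_one {E : Finset ℕ} {e : ℕ} (h : ind E e = 1) : e ∈ E := by
  unfold ind at h
  by_contra h2
  rw [if_neg h2] at h
  omega

theorem ind_zero {E : Finset ℕ} {e : ℕ} (h : ind E e = 0) : e ∉ E := by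
  unfold ind at h
  intro h2
  rw [if_pos h2] at h
  omega

/-- number of elements of `S` up to `p` -/
def cA (S : Finset ℕ) (p : ℕ) : ℕ := (S.filter (fun s => s ≤ p)).card

/-- number of elements of `S` above `p` -/
def cB (S : Finset ℕ) (p : ℕ) : ℕ := (S.filter (fun s => p < s)).card

theorem cA_add_cB (S : Finset ℕ) (p : ℕ) : cA S p + cB S p = S.card := by
  have h := Finset.card_filter_add_card_filter_not (s := S) (fun s => s ≤ p)
  have h2 : S.filter (fun s => ¬ s ≤ p) = S.filter (fun s => p < s) := by
    apply Finset.filter_congr
    intro s _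
    exact not_le
  rw [h2] at h
  exact h

theorem sumC (S : Finset ℕ) (κ a b : ℕ) (φ : ℕ → ℕ) (hab : a ≤ b) (hb : b ≤ κ)
    (h1 : ∀ p, p < a → φ p = 2 * (cA S p % 2)) (h2 : ∀ p, a ≤ p → p < b → φ p = 1)
    (h3 : ∀ p, b ≤ p → p < κ → φ p = 2 * (cB S p % 2)) :
    ∑ p ∈ Finset.range κ, φ p = 2 * TL S a + (b - a) + 2 * TR S κ b := by
  rw [Finset.range_eq_Ico, ← Finset.sum_Ico_consecutive φ (Nat.zero_le a) (hab.trans hb),
    ← Finset.sum_Ico_consecutive φ hab hb]
  have e1 : ∑ p ∈ Finset.Ico 0 a, φ p = 2 * TL S a := by
    unfold TL
    rw [Finset.mul_sum, ← Finset.range_eq_Ico]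
    exact Finset.sum_congr rfl fun p hp => h1 p (Finset.mem_range.mp hp)
  have e2 : ∑ p ∈ Finset.Ico a b, φ p = b - a := by
    rw [Finset.sum_congr rfl (fun p hp => h2 p (Finset.mem_Ico.mp hp).1 (Finset.mem_Ico.mp hp).2)]
    simp
  have e3 : ∑ p ∈ Finset.Ico b κ, φ p = 2 * TR S κ b := by
    unfold TR
    rw [Finset.mul_sum]
    exact Finset.sum_congr rfl fun p hp =>
      h3 p (Finset.mem_Ico.mp hp).1 (Finset.mem_Ico.mp hp).2
  rw [e1, e2, e3]
  omega

theorem sumConst (a b c : ℕ) (φ : ℕ → ℕ) (h : ∀ p, a ≤ p → p < b → φ p = c) :
    ∑ p ∈ Finset.Ico a b, φ p = (b - a) * c := by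
  rw [Finset.sum_congr rfl (fun p hp => h p (Finset.mem_Ico.mp hp).1 (Finset.mem_Ico.mp hp).2)]
  simp

theorem sumSplit (a b c : ℕ) (φ : ℕ → ℕ) (x y : ℕ) (hac : a ≤ c) (hcb : c ≤ b)
    (h1 : ∀ p, a ≤ p → p < c → φ p = x) (h2 : ∀ p, c ≤ p → p < b → φ p = y) :
    ∑ p ∈ Finset.Ico a b, φ p = (c - a) * x + (b - c) * y := by
  rw [← Finset.sum_Ico_consecutive φ hac hcb, sumConst a c x φ h1, sumConst c b y φ h2]

variable {n κ K k y z : ℕ} {g N : ℕ → ℕ} {S E : Finset ℕ}

theorem card_split (T : Trace n κ g k y z S E) (hn : κ + 1 ≤ n) :
    E.card = ∑ p ∈ Finset.range κ, (ind E p + ind E (n - 1 + p)) +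
      ∑ e ∈ Finset.Ico κ (n - 1), ind E e := by
  have h1 : E.card = ∑ e ∈ Finset.range (n - 1 + κ), ind E e := by
    unfold ind
    rw [← Finset.card_filter]
    congr 1
    ext e
    simp only [Finset.mem_filter, Finset.mem_range]
    constructor
    · intro h
      have := T.hE e h
      exact ⟨by omega, h⟩
    · exact fun h => h.2
  rw [h1, Finset.range_eq_Ico, ← Finset.sum_Ico_consecutive (ind E) (Nat.zero_le κ)
    (show κ ≤ n - 1 + κ by omega), ← Finset.sum_Ico_consecutive (ind E)
    (show κ ≤ n - 1 by omega) (show n - 1 ≤ n - 1 + κ by omega)]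
  have h2 : ∑ e ∈ Finset.Ico (n - 1) (n - 1 + κ), ind E e =
      ∑ p ∈ Finset.range κ, ind E (n - 1 + p) := by
    rw [Finset.sum_Ico_eq_sum_range]
    congr 1
    congr 1
    omega
  rw [h2, ← Finset.range_eq_Ico, Finset.sum_add_distrib]
  ring

theorem par_low (T : Trace n κ g k y z S E) (hn : κ + 1 ≤ n) (p : ℕ) (hp : p < κ) :
    ind E p = (cA S p + (if y ≤ p then 1 else 0) + (if z ≤ p then 1 else 0)) % 2 := by
  have h := T.hpar p
  have h2 : S.filter (fun s => s ≤ p ∧ p < s + (n - 1)) = S.filter (fun s => s ≤ p) := by
    apply Finset.filter_congr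
    intro s _
    constructor
    · exact fun h => h.1
    · exact fun h => ⟨h, by omega⟩
  rw [h2] at h
  have h3 := ind_le E p
  unfold cA
  unfold ind at h3 ⊢
  omega

theorem par_mid (T : Trace n κ g k y z S E) (e : ℕ) (he : κ ≤ e) (he2 : e + 1 < n) :
    ind E e = (S.card + (if y ≤ e then 1 else 0) + (if z ≤ e then 1 else 0)) % 2 := by
  have h := T.hpar e
  have h2 : S.filter (fun s => s ≤ e ∧ e < s + (n - 1)) = S := by
    apply Finset.filter_true_of_mem
    intro s hs
    have := T.hS s hs
    omega
  rw [h2] at h
  have h3 := ind_le E e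
  unfold ind at h3 ⊢
  omega

theorem par_high (T : Trace n κ g k y z S E) (hn : κ + 1 ≤ n) (p : ℕ) :
    ind E (n - 1 + p) = (cB S p + (if y ≤ n - 1 + p then 1 else 0) +
      (if z ≤ n - 1 + p then 1 else 0)) % 2 := by
  have h := T.hpar (n - 1 + p)
  have h2 : S.filter (fun s => s ≤ n - 1 + p ∧ n - 1 + p < s + (n - 1)) =
      S.filter (fun s => p < s) := by
    apply Finset.filter_congr
    intro s hs
    have := T.hS s hs
    omega
  rw [h2] at h
  have h3 := ind_le E (n - 1 + p)
  unfold cB
  unfold ind at h3 ⊢
  omega

/-- the colours of `S` avoid `E` -/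
theorem col_not (P : Par n κ K g N) (T : Trace n κ g k y z S E) {s : ℕ} (hs : s ∈ S) :
    ind E (g s) = 0 ∧ κ < g s ∧ g s + 4 ≤ n := by
  refine ⟨?_, P.hg1 s (T.hS s hs), P.hg2 s (T.hS s hs)⟩
  unfold ind
  rw [if_neg (T.hgE s hs)]

theorem card_bot (P : Par n κ K g N) (T : Trace n κ g k y z S E) (v : ℕ)
    (h : ∀ s ∈ S, g s < v) : S.card + N v ≤ K :=
  (P.hmid S 0 v (Nat.zero_le _) (fun s hs => ⟨T.hS s hs, Nat.zero_le _, h s hs⟩) T.hinj).trans
    P.hN0

theorem card_le_K (P : Par n κ K g N) (T : Trace n κ g k y z S E) : S.card ≤ K := by
  have h := card_bot P T n (fun s hs => by have := P.hg2 s (T.hS s hs); omega)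
  omega

theorem card_top (P : Par n κ K g N) (T : Trace n κ g k y z S E) (u : ℕ) (hu : u + 3 ≤ n)
    (h : ∀ s ∈ S, u ≤ g s) : S.card ≤ N u := by
  have h2 := P.hmid S u (n - 3) (by omega)
    (fun s hs => ⟨T.hS s hs, h s hs, by have := P.hg2 s (T.hS s hs); omega⟩) T.hinj
  omega

theorem exists_of_odd (h : S.card % 2 = 1) : ∃ s, s ∈ S := by
  have : S.Nonempty := by
    rw [← Finset.card_pos]
    omega
  exact this

/-- both ends in the lower rail -/
theorem form_ll (P : Par n κ K g N) (T : Trace n κ g k y z S E) (hz : z ≤ κ) :
    k = 1 + S.card + 2 * TL S y + (z - y) + 2 * TR S κ z := by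
  have hn := P.hκ
  have hyz := T.hyz
  have hq : S.card % 2 = 0 := by
    by_contra hq
    obtain ⟨s, hs⟩ := exists_of_odd (S := S) (by omega)
    obtain ⟨h1, h2, h3⟩ := col_not P T hs
    have h4 := par_mid T (g s) h2.le (by omega)
    rw [if_pos (by omega), if_pos (by omega)] at h4
    omega
  have h1 := card_split T (by omega)
  rw [sumC S κ y z _ hyz.le hz, sumConst κ (n - 1) 0] at h1
  · have := T.hcard
    omega
  · intro e he he2
    have h4 := par_mid T e he (by omega)
    rw [if_pos (by omega), if_pos (by omega)] at h4
    omega
  · intro p hp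
    have h2 := par_low T (by omega) p (by omega)
    have h3 := par_high T (by omega) p
    have h4 := cA_add_cB S p
    rw [if_neg (by omega), if_neg (by omega)] at h2
    rw [if_pos (by omega), if_pos (by omega)] at h3
    omega
  · intro p hp hp2
    have h2 := par_low T (by omega) p (by omega)
    have h3 := par_high T (by omega) p
    have h4 := cA_add_cB S p
    rw [if_pos (by omega), if_neg (by omega)] at h2
    rw [if_pos (by omega), if_pos (by omega)] at h3
    omega
  · intro p hp hp2
    have h2 := par_low T (by omega) p (by omega)
    have h3 := par_high T (by omega) p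
    have h4 := cA_add_cB S p
    rw [if_pos (by omega), if_pos (by omega)] at h2
    rw [if_pos (by omega), if_pos (by omega)] at h3
    omega

/-- both ends in the upper rail -/
theorem form_hh (P : Par n κ K g N) (T : Trace n κ g k y z S E) (hy : n ≤ y + 1) :
    k = 1 + S.card + 2 * TL S (y - (n - 1)) + (z - y) + 2 * TR S κ (z - (n - 1)) := by
  have hn := P.hκ
  have hyz := T.hyz
  have hzb := T.hz
  have hq : S.card % 2 = 0 := by
    by_contra hq
    obtain ⟨s, hs⟩ := exists_of_odd (S := S) (by omega)
    obtain ⟨h1, h2, h3⟩ := col_not P T hs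
    have h4 := par_mid T (g s) h2.le (by omega)
    rw [if_neg (by omega), if_neg (by omega)] at h4
    omega
  have h1 := card_split T (by omega)
  rw [sumC S κ (y - (n - 1)) (z - (n - 1)) _ (by omega) (by omega),
    sumConst κ (n - 1) 0] at h1
  · have := T.hcard
    omega
  · intro e he he2
    have h4 := par_mid T e he (by omega)
    rw [if_neg (by omega), if_neg (by omega)] at h4
    omega
  · intro p hp
    have h2 := par_low T (by omega) p (by omega)
    have h3 := par_high T (by omega) p
    have h4 := cA_add_cB S p
    rw [if_neg (by omega), if_neg (by omega)] at h2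
    rw [if_neg (by omega), if_neg (by omega)] at h3
    omega
  · intro p hp hp2
    have h2 := par_low T (by omega) p (by omega)
    have h3 := par_high T (by omega) p
    have h4 := cA_add_cB S p
    rw [if_neg (by omega), if_neg (by omega)] at h2
    rw [if_pos (by omega), if_neg (by omega)] at h3
    omega
  · intro p hp hp2
    have h2 := par_low T (by omega) p (by omega)
    have h3 := par_high T (by omega) p
    have h4 := cA_add_cB S p
    rw [if_neg (by omega), if_neg (by omega)] at h2
    rw [if_pos (by omega), if_pos (by omega)] at h3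
    omega

/-- lower end in the lower rail, upper end in the upper rail -/
theorem form_lh (P : Par n κ K g N) (T : Trace n κ g k y z S E) (hy : y ≤ κ) (hz : n ≤ z + 1) :
    (S.card = 0 ∧ k + y = z + 1 ∧ ∀ e, y ≤ e → e < z → e ∈ E) ∨
    (S.card % 2 = 1 ∧ k = 1 + S.card + 2 * TL S (min y (z - (n - 1))) +
      (max y (z - (n - 1)) - min y (z - (n - 1))) + 2 * TR S κ (max y (z - (n - 1)))) := by
  have hn := P.hκ
  have hyz := T.hyz
  have hzb := T.hz
  rcases Nat.mod_two_eq_zero_or_one S.card with hq | hq
  · left
    have h0 : S.card = 0 := by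
      by_contra h0
      have : S.Nonempty := by
        rw [← Finset.card_pos]
        omega
      obtain ⟨s, hs⟩ := this
      obtain ⟨h1, h2, h3⟩ := col_not P T hs
      have h4 := par_mid T (g s) h2.le (by omega)
      rw [if_pos (by omega), if_neg (by omega)] at h4
      omega
    have hS : S = ∅ := Finset.card_eq_zero.mp h0
    have hA : ∀ p, cA S p = 0 := fun p => by
      have := cA_add_cB S p
      omega
    have hB : ∀ p, cB S p = 0 := fun p => by
      have := cA_add_cB S p
      omega
    have hE : ∀ e, ind E e = ((if y ≤ e then 1 else 0) + (if z ≤ e then 1 else 0)) % 2 := by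
      intro e
      have h := T.hpar e
      rw [hS] at h
      simp only [Finset.filter_empty, Finset.card_empty] at h
      have h3 := ind_le E e
      unfold ind at h3 ⊢
      omega
    have hEe : ∀ e, y ≤ e → e < z → e ∈ E := by
      intro e h1 h2
      apply ind_one
      rw [hE, if_pos h1, if_neg (by omega)]
    refine ⟨h0, ?_, hEe⟩
    have h5 : E = Finset.Ico y z := by
      ext e
      rw [Finset.mem_Ico]
      constructor
      · intro he
        by_contra hcon
        have h6 : ind E e = 1 := by
          unfold ind
          rw [if_pos he]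
        rw [hE] at h6
        by_cases h7 : y ≤ e
        · rw [if_pos h7, if_pos (by omega)] at h6
          omega
        · rw [if_neg h7, if_neg (by omega)] at h6
          omega
      · exact fun h => hEe e h.1 h.2
    have h6 := T.hcard
    rw [h5, Nat.card_Ico, h0] at h6
    omega
  · right
    refine ⟨hq, ?_⟩
    have h1 := card_split T (by omega)
    rw [sumC S κ (min y (z - (n - 1))) (max y (z - (n - 1))) _ (by omega) (by omega),
      sumConst κ (n - 1) 0] at h1
    · have := T.hcard
      omega
    · intro e he he2
      have h4 := par_mid T e he (by omega)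
      rw [if_pos (by omega), if_neg (by omega)] at h4
      omega
    · intro p hp
      have h2 := par_low T (by omega) p (by omega)
      have h3 := par_high T (by omega) p
      have h4 := cA_add_cB S p
      rw [if_neg (by omega), if_neg (by omega)] at h2
      rw [if_pos (by omega), if_neg (by omega)] at h3
      omega
    · intro p hp hp2
      have h2 := par_low T (by omega) p (by omega)
      have h3 := par_high T (by omega) p
      have h4 := cA_add_cB S p
      rw [if_neg (show ¬ z ≤ p by omega)] at h2
      rw [if_pos (show y ≤ n - 1 + p by omega)] at h3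
      split_ifs at h2 h3 <;> omega
    · intro p hp hp2
      have h2 := par_low T (by omega) p (by omega)
      have h3 := par_high T (by omega) p
      have h4 := cA_add_cB S p
      rw [if_pos (by omega), if_neg (by omega)] at h2
      rw [if_pos (by omega), if_pos (by omega)] at h3
      omega

/-- lower end in the lower rail, upper end in the middle, even number of rungs -/
theorem form_lM_even (P : Par n κ K g N) (T : Trace n κ g k y z S E) (hy : y ≤ κ) (hz : κ < z)
    (hz2 : z + 1 < n) (hq : S.card % 2 = 0) :
    k + y = 1 + S.card + 2 * TL S y + z ∧ ∀ s ∈ S, z ≤ g s := by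
  have hn := P.hκ
  have hyz := T.hyz
  refine ⟨?_, ?_⟩
  · have h1 := card_split T (by omega)
    rw [sumC S κ y κ _ hy le_rfl, TR_zero S κ κ κ T.hS le_rfl,
      sumSplit κ (n - 1) z _ 1 0 hz.le (by omega)] at h1
    · have := T.hcard
      omega
    · intro e he he2
      have h4 := par_mid T e he (by omega)
      rw [if_pos (by omega), if_neg (by omega)] at h4
      omega
    · intro e he he2
      have h4 := par_mid T e (by omega) (by omega)
      rw [if_pos (by omega), if_pos (by omega)] at h4
      omega
    · intro p hp
      have h2 := par_low T (by omega) p (by omega)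
      have h3 := par_high T (by omega) p
      have h4 := cA_add_cB S p
      rw [if_neg (by omega), if_neg (by omega)] at h2
      rw [if_pos (by omega), if_pos (by omega)] at h3
      omega
    · intro p hp hp2
      have h2 := par_low T (by omega) p (by omega)
      have h3 := par_high T (by omega) p
      have h4 := cA_add_cB S p
      rw [if_pos (by omega), if_neg (by omega)] at h2
      rw [if_pos (by omega), if_pos (by omega)] at h3
      omega
    · intro p hp hp2
      omega
  · intro s hs
    by_contra hcon
    obtain ⟨h1, h2, h3⟩ := col_not P T hs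
    have h4 := par_mid T (g s) h2.le (by omega)
    rw [if_pos (by omega), if_neg (by omega)] at h4
    omega

/-- lower end in the lower rail, upper end in the middle, odd number of rungs -/
theorem form_lM_odd (P : Par n κ K g N) (T : Trace n κ g k y z S E) (hy : y ≤ κ) (hz : κ < z)
    (hz2 : z + 1 < n) (hq : S.card % 2 = 1) :
    k + z = S.card + 2 * TR S κ y + y + n ∧ ∀ s ∈ S, g s < z := by
  have hn := P.hκ
  have hyz := T.hyz
  refine ⟨?_, ?_⟩
  · have h1 := card_split T (by omega)
    rw [sumC S κ 0 y _ (Nat.zero_le _) hy, TL_zero S 0 0 (fun _ _ => Nat.zero_le _) le_rfl,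
      sumSplit κ (n - 1) z _ 0 1 hz.le (by omega)] at h1
    · have := T.hcard
      omega
    · intro e he he2
      have h4 := par_mid T e he (by omega)
      rw [if_pos (by omega), if_neg (by omega)] at h4
      omega
    · intro e he he2
      have h4 := par_mid T e (by omega) (by omega)
      rw [if_pos (by omega), if_pos (by omega)] at h4
      omega
    · intro p hp
      omega
    · intro p hp hp2
      have h2 := par_low T (by omega) p (by omega)
      have h3 := par_high T (by omega) p
      have h4 := cA_add_cB S p
      rw [if_neg (by omega), if_neg (by omega)] at h2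
      rw [if_pos (by omega), if_pos (by omega)] at h3
      omega
    · intro p hp hp2
      have h2 := par_low T (by omega) p (by omega)
      have h3 := par_high T (by omega) p
      have h4 := cA_add_cB S p
      rw [if_pos (by omega), if_neg (by omega)] at h2
      rw [if_pos (by omega), if_pos (by omega)] at h3
      omega
  · intro s hs
    by_contra hcon
    obtain ⟨h1, h2, h3⟩ := col_not P T hs
    have h4 := par_mid T (g s) h2.le (by omega)
    rw [if_pos (by omega), if_pos (by omega)] at h4
    omega

/-- lower end in the middle, upper end in the upper rail, even number of rungs -/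
theorem form_Mh_even (P : Par n κ K g N) (T : Trace n κ g k y z S E) (hy : κ < y)
    (hy2 : y + 1 < n) (hz : n ≤ z + 1) (hq : S.card % 2 = 0) :
    k + y + (n - 1) = S.card + 2 * TR S κ (z - (n - 1)) + z + n ∧ ∀ s ∈ S, g s < y := by
  have hn := P.hκ
  have hyz := T.hyz
  have hzb := T.hz
  refine ⟨?_, ?_⟩
  · have h1 := card_split T (by omega)
    rw [sumC S κ 0 (z - (n - 1)) _ (Nat.zero_le _) (by omega),
      TL_zero S 0 0 (fun _ _ => Nat.zero_le _) le_rfl,
      sumSplit κ (n - 1) y _ 0 1 hy.le (by omega)] at h1
    · have := T.hcard
      omega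
    · intro e he he2
      have h4 := par_mid T e he (by omega)
      rw [if_neg (by omega), if_neg (by omega)] at h4
      omega
    · intro e he he2
      have h4 := par_mid T e (by omega) (by omega)
      rw [if_pos (by omega), if_neg (by omega)] at h4
      omega
    · intro p hp
      omega
    · intro p hp hp2
      have h2 := par_low T (by omega) p (by omega)
      have h3 := par_high T (by omega) p
      have h4 := cA_add_cB S p
      rw [if_neg (by omega), if_neg (by omega)] at h2
      rw [if_pos (by omega), if_neg (by omega)] at h3
      omega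
    · intro p hp hp2
      have h2 := par_low T (by omega) p (by omega)
      have h3 := par_high T (by omega) p
      have h4 := cA_add_cB S p
      rw [if_neg (by omega), if_neg (by omega)] at h2
      rw [if_pos (by omega), if_pos (by omega)] at h3
      omega
  · intro s hs
    by_contra hcon
    obtain ⟨h1, h2, h3⟩ := col_not P T hs
    have h4 := par_mid T (g s) h2.le (by omega)
    rw [if_pos (by omega), if_neg (by omega)] at h4
    omega

/-- lower end in the middle, upper end in the upper rail, odd number of rungs -/
theorem form_Mh_odd (P : Par n κ K g N) (T : Trace n κ g k y z S E) (hy : κ < y)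
    (hy2 : y + 1 < n) (hz : n ≤ z + 1) (hq : S.card % 2 = 1) :
    k + (z - (n - 1)) = 1 + S.card + 2 * TL S (z - (n - 1)) + y ∧ ∀ s ∈ S, y ≤ g s := by
  have hn := P.hκ
  have hyz := T.hyz
  have hzb := T.hz
  refine ⟨?_, ?_⟩
  · have h1 := card_split T (by omega)
    rw [sumC S κ (z - (n - 1)) κ _ (by omega) le_rfl, TR_zero S κ κ κ T.hS le_rfl,
      sumSplit κ (n - 1) y _ 1 0 hy.le (by omega)] at h1
    · have := T.hcard
      omega
    · intro e he he2
      have h4 := par_mid T e he (by omega)
      rw [if_neg (by omega), if_neg (by omega)] at h4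
      omega
    · intro e he he2
      have h4 := par_mid T e (by omega) (by omega)
      rw [if_pos (by omega), if_neg (by omega)] at h4
      omega
    · intro p hp
      have h2 := par_low T (by omega) p (by omega)
      have h3 := par_high T (by omega) p
      have h4 := cA_add_cB S p
      rw [if_neg (by omega), if_neg (by omega)] at h2
      rw [if_pos (by omega), if_neg (by omega)] at h3
      omega
    · intro p hp hp2
      have h2 := par_low T (by omega) p (by omega)
      have h3 := par_high T (by omega) p
      have h4 := cA_add_cB S p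
      rw [if_neg (by omega), if_neg (by omega)] at h2
      rw [if_pos (by omega), if_pos (by omega)] at h3
      omega
    · intro p hp hp2
      omega
  · intro s hs
    by_contra hcon
    obtain ⟨h1, h2, h3⟩ := col_not P T hs
    have h4 := par_mid T (g s) h2.le (by omega)
    rw [if_neg (by omega), if_neg (by omega)] at h4
    omega

/-- both ends in the middle, odd number of rungs -/
theorem form_MM_odd (P : Par n κ K g N) (T : Trace n κ g k y z S E) (hy : κ < y)
    (hz : z + 1 < n) (hq : S.card % 2 = 1) :
    k + z = S.card + y + n ∧ ∀ s ∈ S, y ≤ g s ∧ g s < z := by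
  have hn := P.hκ
  have hyz := T.hyz
  refine ⟨?_, ?_⟩
  · have h1 := card_split T (by omega)
    rw [sumC S κ 0 κ _ (Nat.zero_le _) le_rfl, TR_zero S κ κ κ T.hS le_rfl,
      TL_zero S 0 0 (fun _ _ => Nat.zero_le _) le_rfl,
      ← Finset.sum_Ico_consecutive (ind E) (show κ ≤ z by omega) (show z ≤ n - 1 by omega),
      sumSplit κ z y _ 1 0 hy.le (by omega), sumConst z (n - 1) 1] at h1
    · have := T.hcard
      omega
    · intro e he he2
      have h4 := par_mid T e (by omega) (by omega)
      rw [if_pos (by omega), if_pos (by omega)] at h4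
      omega
    · intro e he he2
      have h4 := par_mid T e he (by omega)
      rw [if_neg (by omega), if_neg (by omega)] at h4
      omega
    · intro e he he2
      have h4 := par_mid T e (by omega) (by omega)
      rw [if_pos (by omega), if_neg (by omega)] at h4
      omega
    · intro p hp
      omega
    · intro p hp hp2
      have h2 := par_low T (by omega) p (by omega)
      have h3 := par_high T (by omega) p
      have h4 := cA_add_cB S p
      rw [if_neg (by omega), if_neg (by omega)] at h2
      rw [if_pos (by omega), if_pos (by omega)] at h3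
      omega
    · intro p hp hp2
      omega
  · intro s hs
    obtain ⟨h1, h2, h3⟩ := col_not P T hs
    have h4 := par_mid T (g s) h2.le (by omega)
    constructor
    · by_contra hcon
      rw [if_neg (by omega), if_neg (by omega)] at h4
      omega
    · by_contra hcon
      rw [if_pos (by omega), if_pos (by omega)] at h4
      omega

/-- both ends in the middle, even number of rungs -/
theorem form_MM_even (P : Par n κ K g N) (T : Trace n κ g k y z S E) (hy : κ < y)
    (hz : z + 1 < n) (hq : S.card % 2 = 0) : k = z - y + 1 := by
  have hn := P.hκ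
  have hyz := T.hyz
  apply T.hseg hy hz
  apply ind_zero
  have h4 := par_mid T (y - 1) (by omega) (by omega)
  rw [if_neg (by omega), if_neg (by omega)] at h4
  omega

theorem f_low {v : ℕ} (h : v ≤ κ) : f n κ N v = v := by
  unfold f
  rw [if_pos h]

theorem f_mid {v : ℕ} (h : κ < v) (h2 : v + 1 < n) :
    f n κ N v = min (κ + 1) (n - 2 - v - 2 * N v) := by
  unfold f
  rw [if_neg (by omega), if_pos h2]

theorem f_high {v : ℕ} (h : κ < v) (h2 : n ≤ v + 1) : f n κ N v = v + 2 - n := by
  unfold f
  rw [if_neg (by omega), if_neg (by omega)]

theorem casesA (P : Par n κ K g N) (T : Trace n κ g k y z S E) (hk : k < n) :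
    f n κ N z ≤ f n κ N y + (n - 1 - k) ∧ f n κ N y ≤ f n κ N z + (n - 1 - k) := by
  have hn := P.hκ
  have hyz := T.hyz
  have hzb := T.hz
  have hqK := card_le_K P T
  rcases Nat.lt_or_ge κ y with hy | hy
  · rcases Nat.lt_or_ge (z + 1) n with hz | hz
    · -- both ends in the middle
      have ry := P.hrange y (by omega)
      have rz := P.hrange z (by omega)
      rw [f_mid hy (by omega), f_mid (by omega) hz]
      rcases Nat.mod_two_eq_zero_or_one S.card with hq | hq
      · have h1 := form_MM_even P T hy hz hq
        omega
      · obtain ⟨h1, h2⟩ := form_MM_odd P T hy hz hq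
        have h3 := P.hmid S y z hyz.le (fun s hs => ⟨T.hS s hs, h2 s hs⟩) T.hinj
        have h4 := P.hsp y z hyz.le
        omega
    · rcases Nat.lt_or_ge (y + 1) n with hy2 | hy2
      · -- middle and upper rail
        have ry := P.hrange y (by omega)
        rw [f_mid hy hy2, f_high (by omega) hz]
        rcases Nat.mod_two_eq_zero_or_one S.card with hq | hq
        · obtain ⟨h1, h2⟩ := form_Mh_even P T hy hy2 hz hq
          have h3 := card_bot P T y h2
          have h5 := TR_sub S κ κ (z - (n - 1)) T.hS le_rfl (by omega)
          rcases Nat.eq_zero_or_pos S.card with h0 | h0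
          · have h6 := TR_zero S κ 0 (z - (n - 1)) (fun s hs => by
              rw [Finset.card_eq_zero] at h0
              rw [h0] at hs
              exact absurd hs (Finset.notMem_empty s)) (Nat.zero_le _)
            omega
          · have hne : S.Nonempty := Finset.card_pos.mp h0
            have hb := S.max'_mem hne
            have h6 := TR_main S κ (S.max' hne) (z - (n - 1)) (fun s hs => S.le_max' s hs)
              (T.hS _ hb) hne
            have h7 := P.hc3 _ (T.hS _ hb) y (h2 _ hb)
            omega
        · obtain ⟨h1, h2⟩ := form_Mh_odd P T hy hy2 hz hq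
          have hne : S.Nonempty := Finset.card_pos.mp (by omega)
          have hb := S.min'_mem hne
          have g1 := P.hg2 _ (T.hS _ hb)
          have g2 := h2 _ hb
          have h3 := card_top P T y (by omega) h2
          have h5 := TL_le S (z - (n - 1))
          have h6 := TL_main S κ (S.min' hne) (z - (n - 1)) T.hS (fun s hs => S.min'_le s hs)
            hne (by omega)
          have h7 := P.hc2 _ (T.hS _ hb) y (h2 _ hb)
          omega
      · -- both in the upper rail
        rw [f_high hy hy2, f_high (by omega) hz]
        have h1 := form_hh P T hy2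
        have h2 := TL_le S (y - (n - 1))
        have h3 := TR_sub S κ κ (z - (n - 1)) T.hS le_rfl (by omega)
        omega
  · rcases Nat.lt_or_ge κ z with hz0 | hz0
    · rcases Nat.lt_or_ge (z + 1) n with hz | hz
      · -- lower rail and middle
        have rz := P.hrange z (by omega)
        rw [f_low hy, f_mid hz0 hz]
        rcases Nat.mod_two_eq_zero_or_one S.card with hq | hq
        · obtain ⟨h1, h2⟩ := form_lM_even P T hy hz0 hz hq
          rcases Nat.eq_zero_or_pos S.card with h0 | h0
          · have h6 := TL_zero S y y (fun s hs => by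
              rw [Finset.card_eq_zero] at h0
              rw [h0] at hs
              exact absurd hs (Finset.notMem_empty s)) le_rfl
            omega
          · have hne : S.Nonempty := Finset.card_pos.mp h0
            have hb := S.min'_mem hne
            have g1 := P.hg2 _ (T.hS _ hb)
            have g2 := h2 _ hb
            have h3 := card_top P T z (by omega) h2
            have h5 := TL_le S y
            have h6 := TL_main S κ (S.min' hne) y T.hS (fun s hs => S.min'_le s hs) hne hy
            have h7 := P.hc2 _ (T.hS _ hb) z (h2 _ hb)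
            omega
        · obtain ⟨h1, h2⟩ := form_lM_odd P T hy hz0 hz hq
          have hne : S.Nonempty := Finset.card_pos.mp (by omega)
          have hb := S.max'_mem hne
          have h3 := card_bot P T z h2
          have h5 := TR_sub S κ κ y T.hS le_rfl hy
          have h6 := TR_main S κ (S.max' hne) y (fun s hs => S.le_max' s hs) (T.hS _ hb) hne
          have h7 := P.hc3 _ (T.hS _ hb) z (h2 _ hb)
          omega
      · -- lower rail and upper rail
        rw [f_low hy, f_high hz0 hz]
        rcases form_lh P T hy hz with ⟨h0, h1, -⟩ | ⟨h0, h1⟩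
        · omega
        · have h2 := TL_le S (min y (z - (n - 1)))
          have h3 := TR_sub S κ κ (max y (z - (n - 1))) T.hS le_rfl (by omega)
          omega
    · -- both in the lower rail
      rw [f_low hy, f_low hz0]
      have h1 := form_ll P T hz0
      have h2 := TL_le S y
      have h3 := TR_sub S κ κ z T.hS le_rfl hz0
      omega

theorem casesB (P : Par n κ K g N) (T : Trace n κ g n y z S E) :
    (z = y + 1 ∧ ∃ s ∈ S, g s = y) ∨ (z = y + (n - 1) ∧ y ≤ κ ∧ ∀ e, y ≤ e → e < z → e ∈ E) := by
  have hn := P.hκ
  have hyz := T.hyz
  have hzb := T.hz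
  have hqK := card_le_K P T
  rcases Nat.lt_or_ge κ y with hy | hy
  · rcases Nat.lt_or_ge (z + 1) n with hz | hz
    · -- both ends in the middle
      rcases Nat.mod_two_eq_zero_or_one S.card with hq | hq
      · have h1 := form_MM_even P T hy hz hq
        omega
      · obtain ⟨h1, h2⟩ := form_MM_odd P T hy hz hq
        have h3 := P.hmid S y z hyz.le (fun s hs => ⟨T.hS s hs, h2 s hs⟩) T.hinj
        have h4 := P.hsp y z hyz.le
        left
        refine ⟨by omega, ?_⟩
        obtain ⟨s, hs⟩ := exists_of_odd (S := S) hq
        have h5 := h2 s hs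
        exact ⟨s, hs, by omega⟩
    · exfalso
      rcases Nat.lt_or_ge (y + 1) n with hy2 | hy2
      · -- middle and upper rail
        have ry := P.hrange y (by omega)
        rcases Nat.mod_two_eq_zero_or_one S.card with hq | hq
        · obtain ⟨h1, h2⟩ := form_Mh_even P T hy hy2 hz hq
          have h3 := card_bot P T y h2
          rcases Nat.eq_zero_or_pos S.card with h0 | h0
          · have h6 := TR_zero S κ 0 (z - (n - 1)) (fun s hs => by
              rw [Finset.card_eq_zero] at h0
              rw [h0] at hs
              exact absurd hs (Finset.notMem_empty s)) (Nat.zero_le _)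
            omega
          · have hne : S.Nonempty := Finset.card_pos.mp h0
            have hb := S.max'_mem hne
            have hbκ := T.hS _ hb
            have h7 := P.hc3 _ (T.hS _ hb) y (h2 _ hb)
            rcases Nat.lt_or_ge (S.max' hne) (z - (n - 1)) with h8 | h8
            · have h6 := TR_zero S κ (S.max' hne) (z - (n - 1)) (fun s hs => S.le_max' s hs) h8.le
              omega
            · have h6 := TR_main2 S κ (S.max' hne) (z - (n - 1)) (fun s hs => S.le_max' s hs)
                (T.hS _ hb) h8
              omega
        · obtain ⟨h1, h2⟩ := form_Mh_odd P T hy hy2 hz hq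
          have hne : S.Nonempty := Finset.card_pos.mp (by omega)
          have hb := S.min'_mem hne
          have g1 := P.hg2 _ (T.hS _ hb)
          have g2 := h2 _ hb
          have h3 := card_top P T y (by omega) h2
          have h7 := P.hc2 _ (T.hS _ hb) y (h2 _ hb)
          rcases Nat.lt_or_ge (z - (n - 1)) (S.min' hne) with h8 | h8
          · have h6 := TL_zero S (S.min' hne) (z - (n - 1)) (fun s hs => S.min'_le s hs) h8.le
            omega
          · have h6 := TL_main2 S κ (S.min' hne) (z - (n - 1)) T.hS (fun s hs => S.min'_le s hs)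
              h8 (by omega)
            omega
      · -- both in the upper rail
        have h1 := form_hh P T hy2
        have h2 := TL_le S (y - (n - 1))
        have h3 := TR_sub S κ κ (z - (n - 1)) T.hS le_rfl (by omega)
        omega
  · rcases Nat.lt_or_ge κ z with hz0 | hz0
    · rcases Nat.lt_or_ge (z + 1) n with hz | hz
      · -- lower rail and middle
        exfalso
        have rz := P.hrange z (by omega)
        rcases Nat.mod_two_eq_zero_or_one S.card with hq | hq
        · obtain ⟨h1, h2⟩ := form_lM_even P T hy hz0 hz hq
          rcases Nat.eq_zero_or_pos S.card with h0 | h0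
          · have h6 := TL_zero S y y (fun s hs => by
              rw [Finset.card_eq_zero] at h0
              rw [h0] at hs
              exact absurd hs (Finset.notMem_empty s)) le_rfl
            omega
          · have hne : S.Nonempty := Finset.card_pos.mp h0
            have hb := S.min'_mem hne
            have g1 := P.hg2 _ (T.hS _ hb)
            have g2 := h2 _ hb
            have h3 := card_top P T z (by omega) h2
            have h7 := P.hc2 _ (T.hS _ hb) z (h2 _ hb)
            rcases Nat.lt_or_ge y (S.min' hne) with h8 | h8
            · have h6 := TL_zero S (S.min' hne) y (fun s hs => S.min'_le s hs) h8.le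
              omega
            · have h6 := TL_main2 S κ (S.min' hne) y T.hS (fun s hs => S.min'_le s hs) h8 hy
              omega
        · obtain ⟨h1, h2⟩ := form_lM_odd P T hy hz0 hz hq
          have hne : S.Nonempty := Finset.card_pos.mp (by omega)
          have hb := S.max'_mem hne
          have hbκ := T.hS _ hb
          have h3 := card_bot P T z h2
          have h7 := P.hc3 _ (T.hS _ hb) z (h2 _ hb)
          rcases Nat.lt_or_ge (S.max' hne) y with h8 | h8
          · have h6 := TR_zero S κ (S.max' hne) y (fun s hs => S.le_max' s hs) h8.le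
            omega
          · have h6 := TR_main2 S κ (S.max' hne) y (fun s hs => S.le_max' s hs) (T.hS _ hb) h8
            omega
      · -- lower rail and upper rail
        rcases form_lh P T hy hz with ⟨h0, h1, h2⟩ | ⟨h0, h1⟩
        · right
          exact ⟨by omega, hy, h2⟩
        · exfalso
          have h2 := TL_le S (min y (z - (n - 1)))
          have h3 := TR_sub S κ κ (max y (z - (n - 1))) T.hS le_rfl (by omega)
          omega
    · -- both in the lower rail
      exfalso
      have h1 := form_ll P T hz0
      have h2 := TL_le S y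
      have h3 := TR_sub S κ κ z T.hS le_rfl hz0
      omega

end Pool.Agent.RCF
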