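import Mathlib
import Pool.Agent.RCF.Defs

set_option autoImplicit false

/-!
# The trace of a core path (module Count)
-/

namespace Pool.Agent.RCF

/-- parity of the number of crossings of a sequence -/
theorem cross_parity (u : ℕ → ℕ) (e : ℕ) (m : ℕ) :
    (((Finset.range m).filter (fun i => min (u i) (u (i + 1)) ≤ e ∧
      e < max (u i) (u (i + 1)))).card + (if u 0 ≤ e then 1 else 0) +
      (if u m ≤ e then 1 else 0)) % 2 = 0 := by
  induction m with
  | zero =>
    simp only [Finset.range_zero, Finset.filter_empty, Finset.card_empty]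
    split_ifs <;> rfl
  | succ m ih =>
    rw [Finset.range_add_one, Finset.filter_insert]
    split_ifs at ih ⊢ with h1 h2 h3 h4 h5 h6 h7 <;>
      first
      | (rw [Finset.card_insert_of_notMem (by simp)]; omega)
      | omega

theorem CP.rev {n κ k : ℕ} {g u : ℕ → ℕ} (h : CP n κ g k u) :
    CP n κ g k (fun i => u (k - 1 - i)) := by
  have hk := h.hk
  refine ⟨h.hk, fun i hi => h.hb _ (by omega), fun i hi j hj hij => ?_, fun i hi => ?_,
    fun i j hi hj hij => ?_⟩
  · have := h.hinj _ (by omega) _ (by omega) hij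
    omega
  · have h1 := h.hadj (k - 1 - (i + 1)) (by omega)
    have h2 : k - 1 - (i + 1) + 1 = k - 1 - i := by omega
    rw [h2] at h1
    unfold CAdj at h1 ⊢
    try dsimp only
    omega
  · have h2 : k - 1 - (i + 1) + 1 = k - 1 - i := by omega
    have h3 : k - 1 - (j + 1) + 1 = k - 1 - j := by omega
    have h4 := h.hrb (k - 1 - (i + 1)) (k - 1 - (j + 1)) (by omega) (by omega) (by
      rw [h2, h3]
      try dsimp only at hij
      unfold ccol at hij ⊢
      simp only [max_comm (u (k - 1 - (i + 1))), min_comm (u (k - 1 - (i + 1))),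
        max_comm (u (k - 1 - (j + 1))), min_comm (u (k - 1 - (j + 1)))]
      exact hij)
    omega

/-- a core path between two middle vertices that does not use the edge below the lower end -/
theorem seg_of_path {n κ k : ℕ} {g u : ℕ → ℕ} (h : CP n κ g k u) (hk2 : 2 ≤ k)
    (h0 : κ < u 0) (h01 : u 0 < u (k - 1)) (h1 : u (k - 1) + 1 < n)
    (hno : u 1 + 1 ≠ u 0) : k = u (k - 1) - u 0 + 1 := by
  have hst : ∀ i, i + 1 ≤ u (k - 1) - u 0 → i + 1 < k ∧ u i = u 0 + i ∧ u (i + 1) = u 0 + (i + 1) := by
    intro i
    induction i with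
    | zero =>
      intro hi
      have h2 := h.hadj 0 (by omega)
      have h3 := h.hb 1 (by omega)
      rw [Nat.zero_add] at h2
      refine ⟨by omega, by omega, ?_⟩
      unfold CAdj at h2
      rw [Nat.zero_add]
      omega
    | succ i ih =>
      intro hi
      obtain ⟨h2, h3, h4⟩ := ih (by omega)
      have h5 : i + 1 ≠ k - 1 := by
        intro h6
        rw [h6] at h4
        omega
      have h6 := h.hadj (i + 1) (by omega)
      have h7 := h.hb (i + 1 + 1) (by omega)
      have h8 : u (i + 1 + 1) ≠ u i := by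
        intro h9
        have := h.hinj _ (by omega) _ (by omega) h9
        omega
      refine ⟨by omega, h4, ?_⟩
      unfold CAdj at h6
      omega
  obtain ⟨h2, h3, h4⟩ := hst (u (k - 1) - u 0 - 1) (by omega)
  have h5 : u (u (k - 1) - u 0 - 1 + 1) = u (k - 1) := by omega
  have h6 := h.hinj _ (by omega) _ (by omega) h5
  omega

theorem trace_of_path {n κ k : ℕ} {g : ℕ → ℕ} {u : ℕ → ℕ} (hn : 4 ≤ n) (h : CP n κ g k u)
    (hk2 : 2 ≤ k) :
    ∃ S E : Finset ℕ,
      Trace n κ g k (min (u 0) (u (k - 1))) (max (u 0) (u (k - 1))) S E ∧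
      (∀ s ∈ S, ∃ i, i + 1 < k ∧ ccol g (u i) (u (i + 1)) = g s) ∧
      (∀ e ∈ E, ∃ i, i + 1 < k ∧ ccol g (u i) (u (i + 1)) = e) := by
  classical
  set lo : ℕ → ℕ := fun i => min (u i) (u (i + 1)) with hlo
  set hi : ℕ → ℕ := fun i => max (u i) (u (i + 1)) with hhi
  set A : Finset ℕ := (Finset.range (k - 1)).filter (fun i => hi i = lo i + 1) with hA
  set B : Finset ℕ := (Finset.range (k - 1)).filter (fun i => ¬ hi i = lo i + 1) with hB
  have mA : ∀ i, i ∈ A → i + 1 < k ∧ hi i = lo i + 1 := by
    intro i hi'
    rw [hA, Finset.mem_filter, Finset.mem_range] at hi'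
    exact ⟨by omega, hi'.2⟩
  have hlt : ∀ i, i + 1 < k → hi i < n + κ := by
    intro i hi'
    have h1 := h.hb i (by omega)
    have h2 := h.hb (i + 1) (by omega)
    simp only [hhi]
    omega
  have mB : ∀ i, i ∈ B → i + 1 < k ∧ hi i ≠ lo i + 1 ∧ hi i = lo i + (n - 1) := by
    intro i hi'
    rw [hB, Finset.mem_filter, Finset.mem_range] at hi'
    have h1 := h.hadj i (by omega)
    have h2 : hi i ≠ lo i + 1 := hi'.2
    refine ⟨by omega, h2, ?_⟩
    unfold CAdj at h1
    simp only [hhi, hlo] at h2 ⊢
    omega
  have cA : ∀ i, i ∈ A → ccol g (u i) (u (i + 1)) = lo i := by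
    intro i hi'
    unfold ccol
    rw [if_pos (mA i hi').2]
  have cB : ∀ i, i ∈ B → ccol g (u i) (u (i + 1)) = g (lo i) := by
    intro i hi'
    unfold ccol
    rw [if_neg (mB i hi').2.1]
  have jA : Set.InjOn lo A := by
    intro i hi' j hj' hij
    exact h.hrb i j (mA i hi').1 (mA j hj').1 (by rw [cA i hi', cA j hj', hij])
  have jB : Set.InjOn lo B := by
    intro i hi' j hj' hij
    exact h.hrb i j (mB i hi').1 (mB j hj').1 (by rw [cB i hi', cB j hj', hij])
  have hne : u 0 ≠ u (k - 1) := by
    intro h1
    have := h.hinj _ (by omega) _ (by omega) h1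
    omega
  refine ⟨B.image lo, A.image lo, ⟨?_, ?_, ?_, ?_, ?_, ?_, ?_, ?_, ?_⟩, ?_, ?_⟩
  · omega
  · have h1 := h.hb 0 (by omega)
    have h2 := h.hb (k - 1) (by omega)
    omega
  · intro s hs
    rw [Finset.mem_image] at hs
    obtain ⟨i, hi', rfl⟩ := hs
    have h1 := mB i hi'
    have h2 := hlt i h1.1
    omega
  · intro e he
    rw [Finset.mem_image] at he
    obtain ⟨i, hi', rfl⟩ := he
    have h1 := mA i hi'
    have h2 := hlt i h1.1
    omega
  · intro s hs t ht hst
    rw [Finset.mem_coe, Finset.mem_image] at hs ht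
    obtain ⟨i, hi', rfl⟩ := hs
    obtain ⟨j, hj', rfl⟩ := ht
    rw [h.hrb i j (mB i hi').1 (mB j hj').1 (by rw [cB i hi', cB j hj', hst])]
  · intro s hs hg
    rw [Finset.mem_image] at hs hg
    obtain ⟨i, hi', rfl⟩ := hs
    obtain ⟨j, hj', hj⟩ := hg
    have h1 := h.hrb j i (mA j hj').1 (mB i hi').1 (by rw [cB i hi', cA j hj', hj])
    subst h1
    exact (mB j hi').2.1 (mA j hj').2
  · rw [Finset.card_image_of_injOn jA, Finset.card_image_of_injOn jB]
    have h1 := Finset.card_filter_add_card_filter_not (s := Finset.range (k - 1))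
      (fun i => hi i = lo i + 1)
    rw [Finset.card_range] at h1
    rw [hA, hB]
    omega
  · intro e
    have h1 := cross_parity u e (k - 1)
    have h2 : ((Finset.range (k - 1)).filter (fun i => min (u i) (u (i + 1)) ≤ e ∧
        e < max (u i) (u (i + 1)))).card = (A.filter (fun i => lo i ≤ e ∧ e < hi i)).card +
        (B.filter (fun i => lo i ≤ e ∧ e < hi i)).card := by
      rw [← Finset.card_union_of_disjoint]
      · congr 1
        ext i
        simp only [hA, hB, Finset.mem_filter, Finset.mem_union, hlo, hhi]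
        tauto
      · rw [Finset.disjoint_left]
        intro i h3 h4
        rw [Finset.mem_filter] at h3 h4
        exact (mB i h4.1).2.1 (mA i h3.1).2
    have h3 : (A.filter (fun i => lo i ≤ e ∧ e < hi i)).card =
        (if e ∈ A.image lo then 1 else 0) := by
      split_ifs with h4
      · rw [Finset.mem_image] at h4
        obtain ⟨i, hi', hie⟩ := h4
        rw [Finset.card_eq_one]
        refine ⟨i, ?_⟩
        ext j
        rw [Finset.mem_filter, Finset.mem_singleton]
        constructor
        · rintro ⟨h5, h6, h7⟩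
          have h8 := mA j h5
          exact jA h5 hi' (by omega)
        · rintro rfl
          have h8 := mA j hi'
          exact ⟨hi', by omega, by omega⟩
      · rw [Finset.card_eq_zero, Finset.filter_eq_empty_iff]
        rintro j h5 ⟨h6, h7⟩
        have h8 := mA j h5
        apply h4
        rw [Finset.mem_image]
        exact ⟨j, h5, by omega⟩
    have h4 : (B.filter (fun i => lo i ≤ e ∧ e < hi i)).card =
        ((B.image lo).filter (fun s => s ≤ e ∧ e < s + (n - 1))).card := by
      rw [← Finset.card_image_of_injOn (s := B.filter (fun i => lo i ≤ e ∧ e < hi i)) (f := lo)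
        (jB.mono (by intro i hi'; exact (Finset.mem_filter.mp hi').1))]
      congr 1
      ext s
      simp only [Finset.mem_image, Finset.mem_filter]
      constructor
      · rintro ⟨i, ⟨h5, h6, h7⟩, rfl⟩
        have h8 := mB i h5
        exact ⟨⟨i, h5, rfl⟩, h6, by omega⟩
      · rintro ⟨⟨i, h5, rfl⟩, h6, h7⟩
        have h8 := mB i h5
        exact ⟨i, ⟨h5, h6, by omega⟩, rfl⟩
    rw [h2, h3, h4] at h1
    rcases le_total (u 0) (u (k - 1)) with h5 | h5
    · rw [min_eq_left h5, max_eq_right h5]
      exact h1
    · rw [min_eq_right h5, max_eq_left h5]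
      omega
  · intro h1 h2 h3
    rw [Finset.mem_image] at h3
    push Not at h3
    rcases le_total (u 0) (u (k - 1)) with h5 | h5
    · rw [min_eq_left h5, max_eq_right h5] at *
      refine seg_of_path h hk2 h1 (by omega) h2 fun h4 => ?_
      refine h3 0 ?_ ?_
      · rw [hA, Finset.mem_filter, Finset.mem_range]
        refine ⟨by omega, ?_⟩
        simp only [hlo, hhi, Nat.zero_add]
        omega
      · simp only [hlo, Nat.zero_add]
        omega
    · rw [min_eq_right h5, max_eq_left h5] at *
      have h6 := seg_of_path h.rev hk2 (by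
        try dsimp only
        rw [Nat.sub_zero]
        exact h1) (by
        try dsimp only
        rw [Nat.sub_zero, Nat.sub_self]
        omega) (by
        try dsimp only
        rw [Nat.sub_self]
        exact h2) (by
        try dsimp only
        rw [Nat.sub_zero]
        intro h4
        refine h3 (k - 2) ?_ ?_
        · rw [hA, Finset.mem_filter, Finset.mem_range]
          refine ⟨by omega, ?_⟩
          simp only [hlo, hhi]
          have h7 : k - 2 + 1 = k - 1 := by omega
          have h8 : k - 1 - 1 = k - 2 := by omega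
          rw [h8] at h4
          rw [h7]
          omega
        · simp only [hlo]
          have h7 : k - 2 + 1 = k - 1 := by omega
          have h8 : k - 1 - 1 = k - 2 := by omega
          rw [h8] at h4
          rw [h7]
          omega)
      try dsimp only at h6
      rw [Nat.sub_zero, Nat.sub_self] at h6
      exact h6
  · intro s hs
    rw [Finset.mem_image] at hs
    obtain ⟨i, hi', rfl⟩ := hs
    exact ⟨i, (mB i hi').1, cB i hi'⟩
  · intro e he
    rw [Finset.mem_image] at he
    obtain ⟨i, hi', rfl⟩ := he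
    exact ⟨i, (mA i hi').1, cA i hi'⟩

end Pool.Agent.RCF
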