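import Mathlib
import Pool.Agent.RCF.Defs
import Pool.Agent.RCF.Count
import Pool.Agent.RCF.Cases

set_option autoImplicit false

/-!
# The two core lemmas
-/

namespace Pool.Agent.RCF

theorem ccol_swap (g : ℕ → ℕ) (x y : ℕ) : ccol g x y = ccol g y x := by
  simp only [ccol, max_comm x y, min_comm x y]

theorem coreA {n κ K k : ℕ} {g N u : ℕ → ℕ} (P : Par n κ K g N) (h : CP n κ g k u)
    (hk : k < n) : f n κ N (u (k - 1)) ≤ f n κ N (u 0) + (n - 1 - k) := by
  have hn : 4 ≤ n := by have := P.hκ; omega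
  rcases Nat.lt_or_ge k 2 with h2 | h2
  · have h1 : k = 1 := by have := h.hk; omega
    subst h1
    exact Nat.le_add_right _ _
  · obtain ⟨S, E, T, -, -⟩ := trace_of_path hn h h2
    obtain ⟨h3, h4⟩ := casesA P T hk
    rcases le_total (u 0) (u (k - 1)) with h5 | h5
    · rw [min_eq_left h5, max_eq_right h5] at h3
      exact h3
    · rw [min_eq_right h5, max_eq_left h5] at h4
      exact h4

theorem coreB {n κ K : ℕ} {g N u : ℕ → ℕ} (P : Par n κ K g N) (h : CP n κ g n u) :
    CAdj n (u (n - 1)) (u 0) ∧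
      ∃ i, i + 1 < n ∧ ccol g (u i) (u (i + 1)) = ccol g (u (n - 1)) (u 0) := by
  have hn : 4 ≤ n := by have := P.hκ; omega
  obtain ⟨S, E, T, hS, hE⟩ := trace_of_path hn h (by omega)
  rcases casesB P T with ⟨h1, s, hs, h2⟩ | ⟨h1, h2, h3⟩
  · refine ⟨?_, ?_⟩
    · unfold CAdj
      omega
    · obtain ⟨i, hi, h3⟩ := hS s hs
      refine ⟨i, hi, ?_⟩
      rw [h3, h2, ccol_swap]
      unfold ccol
      rw [if_pos h1]
  · refine ⟨?_, ?_⟩
    · unfold CAdj
      omega
    · set y := min (u 0) (u (n - 1)) with hy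
      have h4 := P.hg1 y h2
      have h5 := P.hg2 y h2
      obtain ⟨i, hi, h6⟩ := hE (g y) (h3 _ (by omega) (by omega))
      refine ⟨i, hi, ?_⟩
      rw [h6, ccol_swap]
      unfold ccol
      rw [if_neg (by omega)]

end Pool.Agent.RCF
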