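import Mathlib
import Pool.Agent.helper94.Rainbow
import Pool.Agent.helper64.RC.Direct
import Pool.Agent.RCF.Defs

set_option autoImplicit false

/-!
# Core and owners (module Owner)
Vertices `0, …, n + κ + r - 1`. The `r` smallest vertices are owners, the others form the core.
-/

namespace Pool.Agent.RCF

open Pool.Agent.helper94.Rainbow

/-- colour of the edge from `x` to `y > x` -/
def ocol (n κ r : ℕ) (g N : ℕ → ℕ) (x y : ℕ) : ℕ :=
  if y = x + 1 then x
  else if x < r then (if y < r ∨ f n κ N (y - r) + x + 1 ≤ r then x else n + κ + r - 1)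
  else if y = x + (n - 1) then r + g (x - r)
  else n + κ + r - 1

/-- the colouring -/
def oc (n κ r : ℕ) (g N : ℕ → ℕ) : Sym2 (Fin (n + κ + r)) → ℕ :=
  Sym2.lift ⟨fun x y => ocol n κ r g N (min x.val y.val) (max x.val y.val), fun x y => by
    dsimp only
    rw [min_comm, max_comm]⟩

section

variable {n κ K r : ℕ} {g N : ℕ → ℕ}

theorem oc_mk (x y : Fin (n + κ + r)) :
    oc n κ r g N s(x, y) = ocol n κ r g N (min x.val y.val) (max x.val y.val) := rfl

/-- a non-default edge at an owner towards a higher vertex has the colour of the owner -/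
theorem ocol_owner {x y : ℕ} (hx : x < r) (h : ocol n κ r g N x y ≠ n + κ + r - 1) :
    ocol n κ r g N x y = x := by
  unfold ocol at h ⊢
  split_ifs at h ⊢ with h1 h2
  · rfl
  · rfl
  · exact absurd rfl h

theorem oc_owner {x y : Fin (n + κ + r)} (hx : x.val < r) (hxy : x.val < y.val)
    (h : oc n κ r g N s(x, y) ≠ n + κ + r - 1) : oc n κ r g N s(x, y) = x.val := by
  rw [oc_mk, min_eq_left hxy.le, max_eq_right hxy.le] at h ⊢
  exact ocol_owner hx h

/-- non-default edges of the core are core edges -/
theorem cadj_of_oc {x y : Fin (n + κ + r)} (hx : r ≤ x.val) (hy : r ≤ y.val) (hxy : x ≠ y)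
    (h : oc n κ r g N s(x, y) ≠ n + κ + r - 1) : CAdj n (x.val - r) (y.val - r) := by
  have hne : x.val ≠ y.val := fun h2 => hxy (Fin.ext h2)
  rw [oc_mk] at h
  unfold CAdj
  rcases Nat.lt_or_gt_of_ne hne with h1 | h1
  · rw [min_eq_left h1.le, max_eq_right h1.le] at h
    unfold ocol at h
    split_ifs at h with h2 h3 h4 h5
    · left; omega
    · omega
    · omega
    · right; right; left; omega
    · exact absurd rfl h
  · rw [min_eq_right h1.le, max_eq_left h1.le] at h
    unfold ocol at h
    split_ifs at h with h2 h3 h4 h5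
    · right; left; omega
    · omega
    · omega
    · right; right; right; omega
    · exact absurd rfl h

theorem ocol_core (hn : 4 ≤ n) {x y : ℕ} (hx : r ≤ x) (hxy : x < y)
    (h : CAdj n (x - r) (y - r)) :
    ocol n κ r g N x y = r + ccol g (x - r) (y - r) := by
  unfold ocol ccol
  have h1 : x - r < y - r := by omega
  rw [min_eq_left h1.le, max_eq_right h1.le]
  unfold CAdj at h
  by_cases h2 : y = x + 1
  · rw [if_pos h2, if_pos (by omega)]
    omega
  · rw [if_neg h2, if_neg (by omega), if_pos (by omega), if_neg (by omega)]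

theorem ccol_comm (x y : ℕ) : ccol g x y = ccol g y x := by
  unfold ccol
  rw [min_comm, max_comm]

theorem cadj_comm {x y : ℕ} (h : CAdj n x y) : CAdj n y x := by
  unfold CAdj at h ⊢
  omega

theorem oc_core (hn : 4 ≤ n) {x y : Fin (n + κ + r)} (hx : r ≤ x.val) (hy : r ≤ y.val)
    (hxy : x ≠ y) (h : CAdj n (x.val - r) (y.val - r)) :
    oc n κ r g N s(x, y) = r + ccol g (x.val - r) (y.val - r) := by
  have hne : x.val ≠ y.val := fun h2 => hxy (Fin.ext h2)
  rw [oc_mk]
  rcases Nat.lt_or_gt_of_ne hne with h1 | h1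
  · rw [min_eq_left h1.le, max_eq_right h1.le]
    exact ocol_core hn hx h1 h
  · rw [min_eq_right h1.le, max_eq_left h1.le, ccol_comm]
    exact ocol_core hn hy h1 (cadj_comm h)

theorem f_zero : f n κ N 0 = 0 := by
  unfold f
  rw [if_pos (Nat.zero_le _)]

theorem f_last (hn : 4 ≤ n) : f n κ N (n + κ - 1) = κ + 1 := by
  unfold f
  rw [if_neg (by omega), if_neg (by omega)]
  omega

end

theorem oc_has {n κ K r : ℕ} {g N : ℕ → ℕ} (P : Par n κ K g N) (hr : r ≤ κ + 1)
    (h1 : 1 ≤ κ + r) : HasRainbowCycle (oc n κ r g N) (n + κ + r) := by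
  have hn := P.hκ
  apply Pool.Agent.helper64.RC.hasRainbow_of_walk (by omega)
  have hm0 : 0 < n + κ + r := by omega
  have e : ∀ k (hk : k < n + κ + r), oc n κ r g N s(Pool.Agent.helper64.RC.walk hm0 k,
      Pool.Agent.helper64.RC.walk hm0 (k + 1)) = k := by
    intro k hk
    rcases Nat.lt_or_ge (k + 1) (n + κ + r) with h | h
    · rw [Pool.Agent.helper64.RC.walk_small hm0 hk, Pool.Agent.helper64.RC.walk_small hm0 h, oc_mk]
      show ocol n κ r g N (min k (k + 1)) (max k (k + 1)) = k
      rw [min_eq_left (by omega), max_eq_right (by omega)]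
      unfold ocol
      rw [if_pos rfl]
    · have e0 : Pool.Agent.helper64.RC.walk hm0 (k + 1) = Pool.Agent.helper64.RC.walk hm0 0 := by
        rw [show k + 1 = 0 + (n + κ + r) by omega, Pool.Agent.helper64.RC.walk_per]
      rw [e0, Pool.Agent.helper64.RC.walk_small hm0 hk,
        Pool.Agent.helper64.RC.walk_small hm0 hm0, oc_mk]
      show ocol n κ r g N (min k 0) (max k 0) = k
      rw [min_eq_right (Nat.zero_le _), max_eq_left (Nat.zero_le _)]
      unfold ocol
      rw [if_neg (by omega)]
      by_cases h0 : 0 < r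
      · have h2 : f n κ N (k - r) = κ + 1 := by
          rw [show k - r = n + κ - 1 by omega]
          exact f_last (by omega)
        rw [if_pos h0, if_neg (by rw [h2]; omega)]
        omega
      · rw [if_neg h0, if_neg (by omega)]
        omega
  intro i j hij hj
  rw [e i (by omega), e j hj]
  omega

/-- the reversed cycle -/
theorem isRC_rev {V C : Type} {c : Sym2 V → C} {n : ℕ} {w : ℕ → V} (h : IsRC c n w) :
    IsRC c n (fun k => w (n - k % n)) := by
  have edge : ∀ i, i < n → c s(w (n - i % n), w (n - (i + 1) % n)) =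
      c s(w (n - 1 - i), w (n - 1 - i + 1)) := by
    intro i hi
    have e1 : n - i % n = n - 1 - i + 1 := by
      rw [Nat.mod_eq_of_lt hi]
      omega
    have e2 : w (n - (i + 1) % n) = w (n - 1 - i) := by
      rcases Nat.lt_or_ge (i + 1) n with h1 | h1
      · rw [Nat.mod_eq_of_lt h1]
        congr 1
        omega
      · have h2 : i + 1 = n := by omega
        rw [h2, Nat.mod_self, show n - 0 = 0 + n by omega, h.per]
        congr 1
        omega
    rw [e1, e2, Sym2.eq_swap]
  refine ⟨?_, ?_, ?_⟩
  · intro k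
    simp only [Nat.add_mod_right]
  · intro i j hi hj hij
    simp only [Nat.mod_eq_of_lt hi, Nat.mod_eq_of_lt hj] at hij
    rcases lt_trichotomy i j with h1 | h1 | h1
    · exact absurd hij.symm (h.ne (i := n - j) (j := n - i) (by omega) (by omega))
    · exact h1
    · exact absurd hij (h.ne (i := n - i) (j := n - j) (by omega) (by omega))
  · intro i j hi hj hij
    have hij' : c s(w (n - i % n), w (n - (i + 1) % n)) =
        c s(w (n - j % n), w (n - (j + 1) % n)) := hij
    rw [edge i hi, edge j hj] at hij'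
    have := h.col (n - 1 - i) (n - 1 - j) (by omega) (by omega) hij'
    omega

/-- a segment of a rainbow cycle in the core without default edges is a core path -/
theorem cp_of_seg {n κ r : ℕ} {g N : ℕ → ℕ} (hn : 4 ≤ n) {w : ℕ → Fin (n + κ + r)}
    (hw : IsRC (oc n κ r g N) n w) (j k : ℕ) (hk : 1 ≤ k) (hjk : j + k ≤ n)
    (hcore : ∀ i, j ≤ i → i < j + k → r ≤ (w i).val)
    (hnd : ∀ i, j ≤ i → i + 1 < j + k → oc n κ r g N s(w i, w (i + 1)) ≠ n + κ + r - 1) :
    CP n κ g k (fun i => (w (j + i)).val - r) := by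
  have hadj : ∀ i, i + 1 < k →
      CAdj n ((w (j + i)).val - r) ((w (j + (i + 1))).val - r) := by
    intro i hi
    exact cadj_of_oc (hcore _ (by omega) (by omega)) (hcore _ (by omega) (by omega))
      (hw.ne (by omega) (by omega)) (hnd (j + i) (by omega) (by omega))
  have hcol : ∀ i, i + 1 < k → oc n κ r g N s(w (j + i), w (j + i + 1)) =
      r + ccol g ((w (j + i)).val - r) ((w (j + (i + 1))).val - r) := by
    intro i hi
    exact oc_core hn (hcore _ (by omega) (by omega)) (hcore _ (by omega) (by omega))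
      (hw.ne (by omega) (by omega)) (hadj i hi)
  refine ⟨hk, ?_, ?_, hadj, ?_⟩
  · intro i hi
    have h1 := (w (j + i)).isLt
    have h2 := hcore (j + i) (by omega) (by omega)
    show (w (j + i)).val - r < n + κ
    omega
  · intro i hi i' hi' he
    have he' : (w (j + i)).val - r = (w (j + i')).val - r := he
    have h2 := hcore (j + i) (by omega) (by omega)
    have h3 := hcore (j + i') (by omega) (by omega)
    have h4 : w (j + i) = w (j + i') := Fin.ext (by omega)
    have := hw.inj (j + i) (j + i') (by omega) (by omega) h4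
    omega
  · intro i i' hi hi' he
    have he' : ccol g ((w (j + i)).val - r) ((w (j + (i + 1))).val - r) =
        ccol g ((w (j + i')).val - r) ((w (j + (i' + 1))).val - r) := he
    have h4 := hw.col (j + i) (j + i') (by omega) (by omega)
      (by rw [hcol i hi, hcol i' hi', he'])
    omega

/-- the cycle has an owner, its minimum is at `0` and the edge before `0` is default -/
theorem case_owner {n κ r : ℕ} {g N : ℕ → ℕ} (hn : 4 ≤ n)
    (hA : ∀ k u, CP n κ g k u → k < n → f n κ N (u (k - 1)) ≤ f n κ N (u 0) + (n - 1 - k))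
    {w : ℕ → Fin (n + κ + r)} (hw : IsRC (oc n κ r g N) n w) (h0 : (w 0).val < r)
    (hmin : ∀ k, (w 0).val ≤ (w k).val)
    (hdef : oc n κ r g N s(w (n - 1), w (n - 1 + 1)) = n + κ + r - 1) : False := by
  classical
  have hwn : w (n - 1 + 1) = w 0 := by
    rw [show n - 1 + 1 = 0 + n by omega, hw.per]
  have hlt : (w 0).val < (w (n - 1)).val := by
    have h1 := hmin (n - 1)
    have h2 : w 0 ≠ w (n - 1) := hw.ne (by omega) (by omega)
    have h3 : (w 0).val ≠ (w (n - 1)).val := fun h => h2 (Fin.ext h)
    omega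
  rw [hwn, Sym2.eq_swap, oc_mk, min_eq_left hlt.le, max_eq_right hlt.le] at hdef
  have hnd : ∀ i, i < n - 1 → oc n κ r g N s(w i, w (i + 1)) ≠ n + κ + r - 1 := by
    intro i hi he
    have h1 := hw.col_ne (i := i) (j := n - 1) hi (by omega)
    rw [hwn, he, Sym2.eq_swap, oc_mk, min_eq_left hlt.le, max_eq_right hlt.le, hdef] at h1
    exact h1 rfl
  have hlast : r ≤ (w (n - 1)).val := by
    by_contra h
    have h1 : ocol n κ r g N (w 0).val (w (n - 1)).val = (w 0).val := by
      unfold ocol
      split_ifs with h2 h3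
      · rfl
      · rfl
      · exact absurd (Or.inl (by omega)) h3
    omega
  set is := Nat.findGreatest (fun i => (w i).val < r) (n - 1) with his
  have hs1 : (w is).val < r :=
    Nat.findGreatest_spec (P := fun i => (w i).val < r) (Nat.zero_le (n - 1)) h0
  have hs2 : ∀ i, is < i → i ≤ n - 1 → r ≤ (w i).val := by
    intro i h1 h2
    have := Nat.findGreatest_is_greatest (P := fun i => (w i).val < r) h1 h2
    omega
  have hs3 : is < n - 1 := by
    have h1 : is ≤ n - 1 := Nat.findGreatest_le _
    rcases Nat.lt_or_ge is (n - 1) with h | h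
    · exact h
    · have h2 : is = n - 1 := by omega
      rw [h2] at hs1
      omega
  have hup : ∀ t, t ≤ is → (w (is - t)).val < r ∧
      oc n κ r g N s(w (is - t), w (is - t + 1)) = (w (is - t)).val ∧
      (w (is - t)).val + t ≤ (w is).val := by
    intro t
    induction t with
    | zero =>
      intro _
      have h1 := hs2 (is + 1) (by omega) (by omega)
      exact ⟨hs1, oc_owner hs1 (by simp only [Nat.sub_zero]; omega)
        (hnd _ (by simp only [Nat.sub_zero]; omega)), by simp⟩
    | succ t ih =>
      intro ht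
      obtain ⟨h1, h2, h3⟩ := ih (by omega)
      have e1 : is - t = is - (t + 1) + 1 := by omega
      rw [e1] at h1 h2 h3
      have hne : w (is - (t + 1)) ≠ w (is - (t + 1) + 1) := hw.ne (by omega) (by omega)
      have hne' : (w (is - (t + 1))).val ≠ (w (is - (t + 1) + 1)).val := fun h => hne (Fin.ext h)
      have hd := hnd (is - (t + 1)) (by omega)
      rcases Nat.lt_or_gt_of_ne hne' with h4 | h4
      · exact ⟨by omega, oc_owner (by omega) h4 hd, by omega⟩
      · exfalso
        rw [Sym2.eq_swap] at hd
        have h5 := oc_owner h1 h4 hd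
        rw [Sym2.eq_swap, ← h2] at h5
        exact hw.col_ne (by omega) (by omega) h5
  obtain ⟨_, _, h3⟩ := hup is le_rfl
  rw [Nat.sub_self] at h3
  -- the edge leaving the owners
  have hedge : f n κ N ((w (is + 1)).val - r) + (w is).val + 1 ≤ r := by
    have h4 := hs2 (is + 1) (by omega) (by omega)
    have h5 := hnd is hs3
    rw [oc_mk, min_eq_left (by omega), max_eq_right (by omega)] at h5
    unfold ocol at h5
    by_cases h6 : (w (is + 1)).val = (w is).val + 1
    · rw [show (w (is + 1)).val - r = 0 by omega, f_zero]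
      omega
    · rw [if_neg h6, if_pos hs1] at h5
      split_ifs at h5 with h7
      · rcases h7 with h7 | h7
        · omega
        · exact h7
      · exact absurd rfl h5
  have hcp := cp_of_seg hn hw (is + 1) (n - (is + 1)) (by omega) (by omega)
    (fun i h4 h5 => hs2 i (by omega) (by omega)) (fun i h4 h5 => hnd i (by omega))
  have h6 := hA _ _ hcp (by omega)
  have e2 : is + 1 + (n - (is + 1) - 1) = n - 1 := by omega
  simp only [e2, Nat.add_zero] at h6
  -- the closing edge is not default
  have h7 : ocol n κ r g N (w 0).val (w (n - 1)).val = (w 0).val := by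
    unfold ocol
    split_ifs with h8 h9
    · rfl
    · rfl
    · exact absurd (Or.inr (by omega)) h9
  omega

theorem oc_not {n κ K r : ℕ} {g N : ℕ → ℕ} (P : Par n κ K g N) (hr : r ≤ κ + 1)
    (h1 : 1 ≤ κ + r)
    (hA : ∀ k u, CP n κ g k u → k < n → f n κ N (u (k - 1)) ≤ f n κ N (u 0) + (n - 1 - k))
    (hB : ∀ u, CP n κ g n u → CAdj n (u (n - 1)) (u 0) ∧
      ∃ i, i + 1 < n ∧ ccol g (u i) (u (i + 1)) = ccol g (u (n - 1)) (u 0)) :
    ¬ HasRainbowCycle (oc n κ r g N) n := by
  classical
  intro hrc
  have hn4 : 4 ≤ n := by have := P.hκ; omega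
  obtain ⟨w, hw⟩ := hrc.exists_isRC (by omega)
  by_cases hex : ∃ k, (w k).val < r
  · -- an owner of smallest value
    obtain ⟨a, ha⟩ : ∃ a, ∀ k, (w a).val ≤ (w k).val := by
      have hx : ∃ x, ∃ k, (w k).val = x := ⟨_, 0, rfl⟩
      obtain ⟨a, ha⟩ := Nat.find_spec hx
      exact ⟨a, fun k => by rw [ha]; exact Nat.find_min' hx ⟨k, rfl⟩⟩
    obtain ⟨b, hb⟩ := hex
    have hw1 := hw.rotate (by omega) a
    set v : ℕ → Fin (n + κ + r) := fun k => w (k + a) with hv
    have hv0 : v 0 = w a := by simp [hv]
    have h0 : (v 0).val < r := by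
      rw [hv0]
      have := ha b
      omega
    have hmin : ∀ k, (v 0).val ≤ (v k).val := fun k => by
      rw [hv0]
      exact ha _
    by_cases hd : oc n κ r g N s(v (n - 1), v (n - 1 + 1)) = n + κ + r - 1
    · exact case_owner hn4 hA hw1 h0 hmin hd
    · -- reverse
      have hwn : v (n - 1 + 1) = v 0 := by
        rw [show n - 1 + 1 = 0 + n by omega, hw1.per]
      have hlt : ∀ k, 0 < k → k < n → (v 0).val < (v k).val := by
        intro k hk hk'
        have h2 := hmin k
        have h3 : v 0 ≠ v k := hw1.ne hk (by omega)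
        have h4 : (v 0).val ≠ (v k).val := fun h => h3 (Fin.ext h)
        omega
      have e1 : oc n κ r g N s(v (n - 1), v (n - 1 + 1)) = (v 0).val := by
        rw [hwn, Sym2.eq_swap] at hd ⊢
        exact oc_owner h0 (hlt _ (by omega) (by omega)) hd
      have e2 : oc n κ r g N s(v 0, v (0 + 1)) = n + κ + r - 1 := by
        by_contra h
        have h2 := oc_owner h0 (hlt (0 + 1) (by omega) (by omega)) h
        exact hw1.col_ne (i := 0) (j := n - 1) (by omega) (by omega) (by rw [h2, e1])
      have hrev := isRC_rev hw1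
      have r0 : v (n - 0 % n) = v 0 := by
        rw [Nat.zero_mod, show n - 0 = 0 + n by omega, hw1.per]
      have r1 : v (n - (n - 1) % n) = v 1 := by
        rw [Nat.mod_eq_of_lt (by omega)]
        congr 1
        omega
      have r2 : v (n - (n - 1 + 1) % n) = v 0 := by
        rw [show n - 1 + 1 = n by omega, Nat.mod_self, show n - 0 = 0 + n by omega, hw1.per]
      refine case_owner hn4 hA hrev ?_ ?_ ?_
      · show (v (n - 0 % n)).val < r
        rw [r0]
        exact h0
      · intro k
        show (v (n - 0 % n)).val ≤ (v (n - k % n)).val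
        rw [r0]
        exact hmin _
      · show oc n κ r g N s(v (n - (n - 1) % n), v (n - (n - 1 + 1) % n)) = n + κ + r - 1
        rw [r1, r2, Sym2.eq_swap]
        exact e2
  · -- a cycle in the core
    push Not at hex
    obtain ⟨v, hv, hcore, hnd⟩ : ∃ v : ℕ → Fin (n + κ + r), IsRC (oc n κ r g N) n v ∧
        (∀ k, r ≤ (v k).val) ∧
        (∀ i, i + 1 < n → oc n κ r g N s(v i, v (i + 1)) ≠ n + κ + r - 1) := by
      by_cases hd : ∃ a, oc n κ r g N s(w a, w (a + 1)) = n + κ + r - 1
      · obtain ⟨a, ha⟩ := hd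
        refine ⟨fun k => w (k + (a + 1)), hw.rotate (by omega) _, fun k => hex _, ?_⟩
        intro i hi he
        have he' : oc n κ r g N s(w (i + (a + 1)), w (i + 1 + (a + 1))) = n + κ + r - 1 := he
        rw [show i + 1 + (a + 1) = i + (a + 1) + 1 by ring] at he'
        refine hw.col_ne (i := a) (j := i + (a + 1)) (by omega) (by omega) ?_
        rw [ha, he']
      · push Not at hd
        exact ⟨w, hw, hex, fun i _ => hd i⟩
    have hcp := cp_of_seg hn4 hv 0 n (by omega) (by omega) (fun i _ _ => hcore i)
      (fun i _ hi => hnd i (by omega))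
    obtain ⟨h2, i, hi, h3⟩ := hB _ hcp
    simp only [Nat.zero_add] at h2 h3
    have hvn : v (n - 1 + 1) = v 0 := by
      rw [show n - 1 + 1 = 0 + n by omega, hv.per]
    have e1 : oc n κ r g N s(v (n - 1), v (n - 1 + 1)) =
        r + ccol g ((v (n - 1)).val - r) ((v 0).val - r) := by
      rw [hvn]
      exact oc_core hn4 (hcore _) (hcore _) (hv.ne (i := 0) (by omega) (by omega)).symm h2
    have h4 : CAdj n ((v i).val - r) ((v (i + 1)).val - r) :=
      cadj_of_oc (hcore _) (hcore _) (hv.ne (by omega) (by omega)) (hnd i hi)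
    have e2 : oc n κ r g N s(v i, v (i + 1)) =
        r + ccol g ((v i).val - r) ((v (i + 1)).val - r) :=
      oc_core hn4 (hcore _) (hcore _) (hv.ne (by omega) (by omega)) h4
    exact hv.col_ne (i := i) (j := n - 1) (by omega) (by omega) (by rw [e1, e2, h3])

end Pool.Agent.RCF
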