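import Mathlib
import Pool.Agent.RCF.Defs

set_option autoImplicit false

/-!
# The explicit parameters (module Params)
`K = (n / 2 - 2) / x`, `c₀ = (n + 1) / 2 - 2 - K`, `g i = (i / x + 1) * (x + 1) + c₀`,
`N u = K - min K ((u - c₀ - 1) / (x + 1))` = number of `1 ≤ t ≤ K` with `t (x + 1) + c₀ ≥ u`.
-/

namespace Pool.Agent.RCF

/-- the number of `1 ≤ t ≤ K` with `t (x + 1) + c < u` -/
def cj (x c K u : ℕ) : ℕ := min K ((u - c - 1) / (x + 1))

theorem cj_le (x c K u : ℕ) : cj x c K u ≤ K := min_le_left _ _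

theorem cj_low {x c K u : ℕ} (h : 1 ≤ cj x c K u) : cj x c K u * (x + 1) + c < u := by
  have h1 : cj x c K u ≤ (u - c - 1) / (x + 1) := min_le_right _ _
  have h2 := (Nat.le_div_iff_mul_le (by omega : 0 < x + 1)).mp h1
  have h3 : 1 * (x + 1) ≤ cj x c K u * (x + 1) := Nat.mul_le_mul_right _ h
  omega

theorem cj_high {x c K u : ℕ} (h : cj x c K u < K) : u ≤ (cj x c K u + 1) * (x + 1) + c := by
  have h1 : cj x c K u = (u - c - 1) / (x + 1) := by
    unfold cj at h ⊢
    omega
  have h2 : u - c - 1 < ((u - c - 1) / (x + 1) + 1) * (x + 1) := by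
    have h3 := Nat.div_add_mod (u - c - 1) (x + 1)
    have h4 := Nat.mod_lt (u - c - 1) (by omega : 0 < x + 1)
    have h5 : ((u - c - 1) / (x + 1) + 1) * (x + 1) =
      (x + 1) * ((u - c - 1) / (x + 1)) + (x + 1) := by ring
    omega
  rw [← h1] at h2
  omega

/-- `t ≤ cj u` iff `γ_t < u`, for `1 ≤ t ≤ K` -/
theorem le_cj {x c K u t : ℕ} (_ht : 1 ≤ t) (htK : t ≤ K) (h : t * (x + 1) + c < u) :
    t ≤ cj x c K u := by
  by_contra h1
  push Not at h1
  have h2 := cj_high (x := x) (c := c) (K := K) (u := u) (by omega)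
  have h3 : (cj x c K u + 1) * (x + 1) ≤ t * (x + 1) := Nat.mul_le_mul_right _ (by omega)
  omega

theorem cj_lt {x c K u t : ℕ} (ht : 1 ≤ t) (h : u ≤ t * (x + 1) + c) : cj x c K u < t := by
  by_contra h1
  push Not at h1
  have h2 := cj_low (x := x) (c := c) (K := K) (u := u) (by omega)
  have h3 : t * (x + 1) ≤ cj x c K u * (x + 1) := Nat.mul_le_mul_right _ h1
  omega

theorem cj_mono {x c K u v : ℕ} (h : u ≤ v) : cj x c K u ≤ cj x c K v := by
  unfold cj
  exact min_le_min_left _ (Nat.div_le_div_right (by omega))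

theorem par_exists (n x κ : ℕ) (hx : 1 ≤ x) (h : n / 2 ≤ x * x + x + 1) (hκ : κ + x + 2 ≤ n / 2) :
    ∃ (K : ℕ) (g N : ℕ → ℕ), Par n κ K g N := by
  obtain ⟨H, hH⟩ : ∃ H, H = n / 2 := ⟨_, rfl⟩
  obtain ⟨C, hC⟩ : ∃ C, C = (n + 1) / 2 := ⟨_, rfl⟩
  obtain ⟨K, hK⟩ : ∃ K, K = (H - 2) / x := ⟨_, rfl⟩
  have hHC : H + C = n := by omega
  have hCH : H ≤ C := by omega
  rw [← hH] at h hκ
  have hKx : K * x + 2 ≤ H := by
    have := Nat.div_mul_le_self (H - 2) x
    rw [← hK] at this
    omega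
  have hKx2 : H < K * x + x + 2 := by
    have h1 := Nat.div_add_mod (H - 2) x
    have h2 := Nat.mod_lt (H - 2) (by omega : 0 < x)
    rw [← hK] at h1
    have h3 : x * K = K * x := Nat.mul_comm _ _
    omega
  have hKle : K ≤ x := by
    by_contra h1
    push Not at h1
    have h2 : (x + 1) * x ≤ K * x := Nat.mul_le_mul_right _ h1
    have h3 : (x + 1) * x = x * x + x := by ring
    omega
  have hK1 : 1 ≤ K := by
    rw [hK, Nat.le_div_iff_mul_le (by omega)]
    omega
  obtain ⟨c, hc⟩ : ∃ c, c + (K + 2) = C := by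
    have h1 : K * 1 ≤ K * x := Nat.mul_le_mul_left _ hx
    exact ⟨C - (K + 2), by omega⟩
  -- the class of a rung
  have hcl : ∀ i, i ≤ κ → i / x + 1 ≤ K ∧ (i / x + 1) * x ≤ i + x ∧ i < (i / x + 1) * x := by
    intro i hi
    have h1 := Nat.div_add_mod i x
    have h2 := Nat.mod_lt i (by omega : 0 < x)
    have h3 : (i / x + 1) * x = x * (i / x) + x := by ring
    refine ⟨?_, by omega, by omega⟩
    by_contra h4
    push Not at h4
    have h5 : K * x ≤ (i / x) * x := Nat.mul_le_mul_right _ (by omega)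
    have h6 : (i / x) * x = x * (i / x) := Nat.mul_comm _ _
    omega
  refine ⟨K, fun i => (i / x + 1) * (x + 1) + c, fun u => K - cj x c K u,
    ⟨by omega, ?_, ?_, ?_, ?_, ?_, ?_, ?_, ?_⟩⟩
  · intro i hi
    have h1 : 1 * (x + 1) ≤ (i / x + 1) * (x + 1) := Nat.mul_le_mul_right _ (Nat.le_add_left 1 _)
    show κ < (i / x + 1) * (x + 1) + c
    omega
  · intro i hi
    obtain ⟨h1, h2, h3⟩ := hcl i hi
    have h4 : (i / x + 1) * (x + 1) = (i / x + 1) * x + (i / x + 1) := by ring
    have h5 : (i / x + 1) * x ≤ K * x := Nat.mul_le_mul_right _ h1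
    show (i / x + 1) * (x + 1) + c + 4 ≤ n
    omega
  · intro i hi u hu
    replace hu : u ≤ (i / x + 1) * (x + 1) + c := hu
    obtain ⟨h1, h2, h3⟩ := hcl i hi
    show κ + (K - cj x c K u) + u + 3 ≤ n + i
    have h4 := cj_lt (K := K) (Nat.le_add_left 1 _) hu
    have h5 := cj_high (x := x) (c := c) (K := K) (u := u) (by omega)
    have h6 : (cj x c K u + 1) * (x + 1) = (cj x c K u + 1) * x + (cj x c K u + 1) := by ring
    have h7 : (cj x c K u + 1) * x ≤ (i / x + 1) * x := Nat.mul_le_mul_right _ (by omega)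
    omega
  · intro i hi u hu
    replace hu : (i / x + 1) * (x + 1) + c < u := hu
    obtain ⟨h1, h2, h3⟩ := hcl i hi
    show n + 2 * i ≤ 2 * u + 2 * (K - cj x c K u)
    have h4 := le_cj (Nat.le_add_left 1 _) h1 hu
    have h5 := cj_low (x := x) (c := c) (K := K) (u := u) (le_trans (Nat.le_add_left 1 _) h4)
    have h6 : cj x c K u * (x + 1) = cj x c K u * x + cj x c K u := by ring
    have h7 : (i / x + 1) * x ≤ cj x c K u * x := Nat.mul_le_mul_right _ h4
    have h8 := cj_le x c K u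
    omega
  · exact Nat.sub_le _ _
  · intro S u v huv hS hinj
    show S.card + (K - cj x c K v) ≤ K - cj x c K u
    have h1 : S.card ≤ (Finset.Ioc (cj x c K u) (cj x c K v)).card := by
      refine Finset.card_le_card_of_injOn (fun s => s / x + 1) ?_ ?_
      · intro s hs
        obtain ⟨h2, h3, h4⟩ := hS s hs
        have h5 := hcl s h2
        rw [Finset.mem_coe, Finset.mem_Ioc]
        exact ⟨cj_lt (Nat.le_add_left 1 _) h3, le_cj (Nat.le_add_left 1 _) h5.1 h4⟩
      · intro s hs t ht hst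
        refine hinj hs ht ?_
        replace hst : s / x + 1 = t / x + 1 := hst
        show (s / x + 1) * (x + 1) + c = (t / x + 1) * (x + 1) + c
        rw [hst]
    rw [Nat.card_Ioc] at h1
    have h2 := cj_le x c K v
    have h3 := cj_mono (x := x) (c := c) (K := K) huv
    omega
  · intro u v huv
    show 2 * (K - cj x c K u) + u ≤ 2 * (K - cj x c K v) + v + 1
    have h2 := cj_le x c K v
    have h3 := cj_mono (x := x) (c := c) (K := K) huv
    rcases Nat.eq_or_lt_of_le h3 with h4 | h4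
    · rw [h4]
      omega
    · have h5 := cj_low (x := x) (c := c) (K := K) (u := v) (by omega)
      have h6 := cj_high (x := x) (c := c) (K := K) (u := u) (by omega)
      obtain ⟨d, hd⟩ : ∃ d, cj x c K v = cj x c K u + 1 + d := ⟨_, (Nat.add_sub_of_le h4).symm⟩
      rw [hd] at h5 h2 ⊢
      have h7 : (cj x c K u + 1 + d) * (x + 1) = (cj x c K u + 1) * (x + 1) + d * (x + 1) := by
        ring
      have h8 : d * 2 ≤ d * (x + 1) := Nat.mul_le_mul_left _ (by omega)
      omega
  · intro u hu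
    show 2 * (K - cj x c K u) + u + 2 ≤ n
    have h2 := cj_le x c K u
    rcases Nat.eq_or_lt_of_le h2 with h4 | h4
    · omega
    · have h6 := cj_high (x := x) (c := c) (K := K) (u := u) h4
      obtain ⟨d, hd⟩ : ∃ d, K = cj x c K u + 1 + d := ⟨_, (Nat.add_sub_of_le h4).symm⟩
      have h7 : (cj x c K u + 1) * (x + 1) = (cj x c K u + 1) * x + (cj x c K u + 1) := by ring
      have h8 : K * x = (cj x c K u + 1) * x + d * x := by
        conv_lhs => rw [hd]
        ring
      have h9 : d * 1 ≤ d * x := Nat.mul_le_mul_left _ hx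
      omega

end Pool.Agent.RCF
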