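import Mathlib
import Pool.Agent.helper94.Rainbow
import Pool.Agent.RCF.Core
import Pool.Agent.RCF.Owner
import Pool.Agent.RCF.Params

set_option autoImplicit false

/-!
# Non-implications up to `2n - O(√n)`
-/

namespace Pool.Agent.RCF

open Pool.Agent.helper94.Rainbow

theorem not_implies_root (n d x : ℕ) (hx : 1 ≤ x) (h : n / 2 ≤ x * x + x + 1) (hd : 1 ≤ d)
    (hdx : d + 2 * x + 3 ≤ 2 * (n / 2)) : ¬ Implies (n + d) n := by
  intro himp
  obtain ⟨κ, r, hκr, h1, h2, h3⟩ : ∃ κ r, d = κ + r ∧ r ≤ κ + 1 ∧ κ + x + 2 ≤ n / 2 ∧ 1 ≤ κ + r :=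
    ⟨d / 2, d - d / 2, by omega, by omega, by omega, by omega⟩
  obtain ⟨K, g, N, P⟩ := par_exists n x κ hx h h2
  have h4 := oc_has P h1 h3
  have h5 := oc_not P h1 h3 (fun k u hu hk => coreA P hu hk) (fun u hu => coreB P hu)
  subst hκr
  rw [← Nat.add_assoc] at himp
  exact h5 (himp _ _ _ h4)

end Pool.Agent.RCF
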