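import Mathlib
import Pool.Agent.helper94.Rainbow
import Pool.Agent.RCF.Final

set_option autoImplicit false

/-!
# The non-implications with square roots
-/

namespace Pool.Agent.RCF

open Pool.Agent.helper94.Rainbow

/-- square form -/
theorem not_implies_sq (m n t : ℕ) (h1 : n < m) (ht : m + 3 + n % 2 + t = 2 * n)
    (h2 : 4 * (n / 2) ≤ t * t + 3) : ¬ Implies m n := by
  obtain ⟨d, rfl⟩ : ∃ d, m = n + d := ⟨m - n, by omega⟩
  obtain ⟨x, hx | hx⟩ : ∃ x, t = 2 * x ∨ t = 2 * x + 1 := ⟨t / 2, by omega⟩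
  · subst hx
    have h3 : 2 * x * (2 * x) = 4 * (x * x) := by ring
    have h4 : n / 2 ≤ x * x := by omega
    have hx1 : 1 ≤ x := by
      rcases Nat.eq_zero_or_pos x with rfl | h
      · omega
      · exact h
    exact not_implies_root n d x hx1 (by omega) (by omega) (by omega)
  · subst hx
    have h3 : (2 * x + 1) * (2 * x + 1) = 4 * (x * x) + 4 * x + 1 := by ring
    have hx1 : 1 ≤ x := by
      rcases Nat.eq_zero_or_pos x with rfl | h
      · omega
      · exact h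
    exact not_implies_root n d x hx1 (by omega) (by omega) (by omega)

/-- even `n` -/
theorem not_implies_sqrt_even (m n : ℕ) (h1 : n < m) (hn : n % 2 = 0)
    (h2 : (m : ℝ) ≤ 2 * n - 3 - √(2 * n - 3)) : ¬ Implies m n := by
  have h3 : √((2 : ℝ) * n - 3) ≤ 2 * n - 3 - m := by linarith
  obtain ⟨h4, h5⟩ := Real.sqrt_le_iff.mp h3
  have h6 : ((m + 3 : ℕ) : ℝ) ≤ ((2 * n : ℕ) : ℝ) := by push_cast; linarith
  have h7 : m + 3 ≤ 2 * n := by exact_mod_cast h6
  obtain ⟨t, ht⟩ : ∃ t, 2 * n = m + 3 + t := ⟨2 * n - (m + 3), by omega⟩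
  have h8 : (2 : ℝ) * n = m + 3 + t := by exact_mod_cast ht
  have h9 : ((2 * n : ℕ) : ℝ) ≤ ((t * t + 3 : ℕ) : ℝ) := by
    push_cast
    nlinarith [h5]
  have h10 : 2 * n ≤ t * t + 3 := by exact_mod_cast h9
  exact not_implies_sq m n t h1 (by omega) (by omega)

/-- odd `n` -/
theorem not_implies_sqrt_odd (m n : ℕ) (h1 : n < m) (hn : n % 2 = 1)
    (h2 : (m : ℝ) ≤ 2 * n - 4 - √(2 * n - 5)) : ¬ Implies m n := by
  have h3 : √((2 : ℝ) * n - 5) ≤ 2 * n - 4 - m := by linarith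
  obtain ⟨h4, h5⟩ := Real.sqrt_le_iff.mp h3
  have h6 : ((m + 4 : ℕ) : ℝ) ≤ ((2 * n : ℕ) : ℝ) := by push_cast; linarith
  have h7 : m + 4 ≤ 2 * n := by exact_mod_cast h6
  obtain ⟨t, ht⟩ : ∃ t, 2 * n = m + 4 + t := ⟨2 * n - (m + 4), by omega⟩
  have h8 : (2 : ℝ) * n = m + 4 + t := by exact_mod_cast ht
  have h9 : ((2 * n : ℕ) : ℝ) ≤ ((t * t + 5 : ℕ) : ℝ) := by
    push_cast
    nlinarith [h5]
  have h10 : 2 * n ≤ t * t + 5 := by exact_mod_cast h9
  exact not_implies_sq m n t h1 (by omega) (by omega)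

end Pool.Agent.RCF
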