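import Mathlib
import Pool.Agent.helper94.Rainbow

set_option autoImplicit false

/-!
# Every length implies `3`
-/

namespace Pool.Agent.RCF

open Pool.Agent.helper94.Rainbow

/-- a closed sequence of `L` vertices with distinct edge colours is a rainbow cycle -/
theorem hasRainbow_of_seq {V C : Type} {c : Sym2 V → C} {L : ℕ} (h3 : 3 ≤ L) (F : ℕ → V)
    (hinj : ∀ i j, i < L → j < L → F i = F j → i = j) (hF : F L = F 0)
    (hcol : ∀ i j, i < j → j < L → c s(F i, F (i + 1)) ≠ c s(F j, F (j + 1))) :
    HasRainbowCycle c L := by
  have key : ∀ i, i < L → F ((i + 1) % L) = F (i + 1) := by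
    intro i hi
    rcases Nat.lt_or_ge (i + 1) L with h | h
    · rw [Nat.mod_eq_of_lt h]
    · have h2 : i + 1 = L := by omega
      rw [h2, Nat.mod_self, hF]
  refine IsRC.hasRainbowCycle (f := fun k => F (k % L)) h3 ⟨?_, ?_, ?_⟩
  · intro k
    simp
  · intro i j hi hj hij
    rw [Nat.mod_eq_of_lt hi, Nat.mod_eq_of_lt hj] at hij
    exact hinj i j hi hj hij
  · intro i j hi hj hij
    rw [Nat.mod_eq_of_lt hi, Nat.mod_eq_of_lt hj, key i hi, key j hj] at hij
    rcases lt_trichotomy i j with h | h | h
    · exact absurd hij (hcol i j h hj)
    · exact h
    · exact absurd hij.symm (hcol j i h hi)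

theorem three_of_rainbow {V C : Type} (c : Sym2 V → C) (m : ℕ) (hm : 3 ≤ m)
    (h : HasRainbowCycle c m) : HasRainbowCycle c 3 := by
  induction m with
  | zero => omega
  | succ m ih =>
    rcases Nat.lt_or_ge m 3 with h3 | h3
    · have h4 : m + 1 = 3 := by omega
      rwa [h4] at h
    · obtain ⟨f, hf⟩ := h.exists_isRC (by omega)
      by_cases h1 : c s(f 0, f 2) = c s(f 0, f 1) ∨ c s(f 0, f 2) = c s(f 1, f 2)
      · apply ih h3
        have hnew : ∀ j, 2 ≤ j → j < m + 1 → c s(f 0, f 2) ≠ c s(f j, f (j + 1)) := by
          intro j hj hjm h5
          rcases h1 with h6 | h6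
          · rw [h6] at h5
            exact hf.col_ne (i := 0) (j := j) (by omega) (by omega) h5
          · rw [h6] at h5
            exact hf.col_ne (i := 1) (j := j) (by omega) (by omega) h5
        apply hasRainbow_of_seq h3 (fun k => if k = 0 then f 0 else f (k + 1))
        · intro i j hi hj hij
          split_ifs at hij with h5 h6 h6
          · omega
          · exact absurd hij (hf.ne (by omega) (by omega))
          · exact absurd hij.symm (hf.ne (by omega) (by omega))
          · have := hf.inj _ _ (by omega) (by omega) hij
            omega
        · rw [if_neg (by omega), if_pos rfl]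
          have := hf.per 0
          rw [Nat.zero_add] at this
          exact this
        · intro i j hij hj
          rw [if_neg (show ¬ i + 1 = 0 by omega), if_neg (show ¬ j + 1 = 0 by omega),
            if_neg (show ¬ j = 0 by omega)]
          by_cases h5 : i = 0
          · subst h5
            rw [if_pos rfl]
            exact hnew (j + 1) (by omega) (by omega)
          · rw [if_neg h5]
            exact hf.col_ne (by omega) (by omega)
      · push Not at h1
        apply hasRainbow_of_seq le_rfl (fun k => if k = 3 then f 0 else f k)
        · intro i j hi hj hij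
          rw [if_neg (by omega), if_neg (by omega)] at hij
          exact hf.inj _ _ (by omega) (by omega) hij
        · rw [if_pos rfl, if_neg (by omega)]
        · intro i j hij hj
          rw [if_neg (show ¬ i = 3 by omega), if_neg (show ¬ i + 1 = 3 by omega),
            if_neg (show ¬ j = 3 by omega)]
          have h01 : c s(f 0, f 1) ≠ c s(f 1, f 2) := hf.col_ne (i := 0) (j := 1) (by omega) (by omega)
          by_cases h5 : j = 2
          · subst h5
            rw [if_pos (by omega), Sym2.eq_swap (a := f 2)]
            have h6 : i = 0 ∨ i = 1 := by omega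
            rcases h6 with rfl | rfl
            · exact fun h => h1.1 h.symm
            · exact fun h => h1.2 h.symm
          · rw [if_neg (by omega)]
            have h6 : i = 0 := by omega
            have h7 : j = 1 := by omega
            subst h6 h7
            exact h01

theorem implies_three (m : ℕ) (hm : 3 ≤ m) : Implies m 3 :=
  fun _ _ _ c h => three_of_rainbow c m hm h

end Pool.Agent.RCF
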